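import Pool.Agent.W263.BSD.Lap

/-! A nonnegative kernel with compactly supported Fourier transform. -/

set_option autoImplicit false

namespace Pool.Agent.W136.FR

open MeasureTheory Filter Topology Set
open Pool.Agent.W263.BSD (LInt lapC lap)

/-- Lebesgue measure on `[-1, 1]` -/
noncomputable def nu : Measure ℝ := volume.restrict (Ioc (-1) 1)

instance : IsFiniteMeasure nu := by
  unfold nu
  constructor
  rw [Measure.restrict_apply_univ]
  simp

/-- the product measure on the cube -/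
noncomputable def mu : Measure (ℝ × ℝ × ℝ × ℝ) := nu.prod (nu.prod (nu.prod nu))

instance : IsFiniteMeasure mu := by unfold mu; infer_instance

/-- sum of the coordinates -/
def sm (y : ℝ × ℝ × ℝ × ℝ) : ℝ := y.1 + (y.2.1 + (y.2.2.1 + y.2.2.2))

theorem sm_continuous : Continuous sm := by unfold sm; fun_prop

/-- the kernel -/
noncomputable def ker (a t : ℝ) : ℝ := (2 * Real.sinc (a * t)) ^ 4

theorem ker_continuous (a : ℝ) : Continuous (ker a) := by
  unfold ker
  have : Continuous fun t : ℝ => Real.sinc (a * t) := Real.continuous_sinc.comp (by fun_prop)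
  fun_prop

theorem ker_nonneg (a t : ℝ) : 0 ≤ ker a t := by
  unfold ker
  positivity

theorem ker_le (a t : ℝ) : ker a t ≤ 16 := by
  unfold ker
  have h := Real.abs_sinc_le_one (a * t)
  have h1 : |2 * Real.sinc (a * t)| ≤ 2 := by
    rw [abs_mul, abs_two]; linarith
  calc (2 * Real.sinc (a * t)) ^ 4 = |2 * Real.sinc (a * t)| ^ 4 := by
        rw [Even.pow_abs (by decide)]
    _ ≤ 2 ^ 4 := pow_le_pow_left₀ (abs_nonneg _) h1 4
    _ = 16 := by norm_num

theorem ker_le' {a t : ℝ} (h : a * t ≠ 0) : ker a t ≤ 16 / (a * t) ^ 4 := by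
  unfold ker
  rw [Real.sinc_of_ne_zero h]
  have h1 : |Real.sin (a * t)| ≤ 1 := Real.abs_sin_le_one _
  have h4 : 0 < (a * t) ^ 4 := by positivity
  have h2 : (Real.sin (a * t)) ^ 4 ≤ 1 := by
    rw [← Even.pow_abs (by decide : Even 4)]
    exact pow_le_one₀ (abs_nonneg _) h1
  have h3 : (2 * (Real.sin (a * t) / (a * t))) ^ 4 = 16 * (Real.sin (a * t)) ^ 4 / (a * t) ^ 4 := by
    rw [mul_pow, div_pow]; ring
  rw [h3]
  gcongr
  linarith

theorem ker_ge {a t : ℝ} (h : |a * t| ≤ 1) : 1 ≤ ker a t := by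
  have key : ∀ x : ℝ, 0 < x → x ≤ 1 → 1 ≤ (2 * Real.sinc x) ^ 4 := by
    intro x h0 h1
    rw [Real.sinc_of_ne_zero h0.ne']
    have h2 := Real.sin_gt_sub_cube h0
    have h3 : 3 / 4 ≤ Real.sin x / x := by
      rw [le_div_iff₀ h0]
      nlinarith [pow_le_one₀ h0.le h1 (n := 2), mul_pos h0 h0]
    have h4 : (1 : ℝ) ≤ 2 * (Real.sin x / x) := by linarith
    exact one_le_pow₀ h4
  unfold ker
  rcases lt_trichotomy (a * t) 0 with h0 | h0 | h0
  · have := key (-(a * t)) (by linarith) (by rw [abs_of_neg h0] at h; exact h)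
    rwa [Real.sinc_neg] at this
  · rw [h0, Real.sinc_zero]; norm_num
  · exact key _ h0 (by rwa [abs_of_pos h0] at h)

theorem integral_nu (t : ℝ) : ∫ y, Complex.exp ((t * y : ℝ) * Complex.I) ∂nu =
    ((2 * Real.sinc t : ℝ) : ℂ) := by
  unfold nu
  rw [← intervalIntegral.integral_of_le (by norm_num)]
  rcases eq_or_ne t 0 with h | h
  · subst h
    simp
    norm_num
  · have h1 := integral_exp_mul_I_eq_sinc t
    have h2 : ∫ y in (-1 : ℝ)..1, Complex.exp ((t * y : ℝ) * Complex.I) =
        t⁻¹ • ∫ x in (t * -1)..(t * 1), Complex.exp ((x : ℝ) * Complex.I) := by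
      rw [← intervalIntegral.integral_comp_mul_left
        (f := fun x : ℝ => Complex.exp ((x : ℝ) * Complex.I)) h]
    rw [h2, mul_neg, mul_one, h1, Complex.real_smul]
    have : (t : ℂ) ≠ 0 := by exact_mod_cast h
    push_cast
    field_simp

/-- the kernel is a Fourier transform -/
theorem ker_eq (a t : ℝ) : ((ker a t : ℝ) : ℂ) =
    ∫ y, Complex.exp ((a * t * sm y : ℝ) * Complex.I) ∂mu := by
  have h1 : ∀ y : ℝ × ℝ × ℝ × ℝ, Complex.exp ((a * t * sm y : ℝ) * Complex.I) =
      Complex.exp ((a * t * y.1 : ℝ) * Complex.I) * (Complex.exp ((a * t * y.2.1 : ℝ) * Complex.I) *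
      (Complex.exp ((a * t * y.2.2.1 : ℝ) * Complex.I) *
        Complex.exp ((a * t * y.2.2.2 : ℝ) * Complex.I))) := by
    intro y
    rw [← Complex.exp_add, ← Complex.exp_add, ← Complex.exp_add]
    congr 1
    unfold sm
    push_cast
    ring
  simp only [h1]
  unfold mu
  rw [integral_prod_mul (fun y : ℝ => Complex.exp ((a * t * y : ℝ) * Complex.I))
    (fun y : ℝ × ℝ × ℝ => (Complex.exp ((a * t * y.1 : ℝ) * Complex.I) *
      (Complex.exp ((a * t * y.2.1 : ℝ) * Complex.I) *
        Complex.exp ((a * t * y.2.2 : ℝ) * Complex.I)))),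
    integral_prod_mul (fun y : ℝ => Complex.exp ((a * t * y : ℝ) * Complex.I))
    (fun y : ℝ × ℝ => (Complex.exp ((a * t * y.1 : ℝ) * Complex.I) *
        Complex.exp ((a * t * y.2 : ℝ) * Complex.I))),
    integral_prod_mul (fun y : ℝ => Complex.exp ((a * t * y : ℝ) * Complex.I))
    (fun y : ℝ => Complex.exp ((a * t * y : ℝ) * Complex.I)), integral_nu]
  unfold ker
  push_cast
  ring

theorem sm_abs : ∀ᵐ y ∂mu, |sm y| ≤ 4 := by
  unfold mu nu
  simp only [Measure.prod_restrict]
  refine ae_restrict_of_forall_mem ?_ fun y hy => ?_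
  · exact measurableSet_Ioc.prod (measurableSet_Ioc.prod (measurableSet_Ioc.prod measurableSet_Ioc))
  · obtain ⟨e1, e2, e3, e4⟩ := hy
    unfold sm
    rw [abs_le]
    constructor <;> linarith [e1.1, e1.2, e2.1, e2.2, e3.1, e3.2, e4.1, e4.2]

theorem mu_univ : mu.real univ = 16 := by
  unfold mu nu
  simp only [Measure.prod_restrict]
  rw [measureReal_def, Measure.restrict_apply_univ]
  simp only [Measure.prod_prod, Real.volume_Ioc]
  norm_num

end Pool.Agent.W136.FR
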