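import Pool.Agent.W136.FR.Smooth

/-! The smoothing identity on the boundary. -/

set_option autoImplicit false

namespace Pool.Agent.W136.FR

open MeasureTheory Filter Topology Set
open Pool.Agent.W263.BSD (LInt lapC lap)

theorem ker_bound {a : ℝ} (ha : 0 < a) : ∃ C : ℝ, 0 < C ∧ ∀ t : ℝ,
    (1 + |t|) * ker a t ≤ C * (1 + t ^ 2)⁻¹ := by
  refine ⟨64 + 64 / a ^ 4, by positivity, fun t => ?_⟩
  rw [← div_eq_mul_inv, le_div_iff₀ (by positivity)]
  have hk0 := ker_nonneg a t
  rcases le_or_gt |t| 1 with h | h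
  · have h1 := ker_le a t
    have h2 : t ^ 2 ≤ 1 := by rw [← sq_abs]; exact pow_le_one₀ (abs_nonneg _) h
    have h3 : 0 ≤ 64 / a ^ 4 := by positivity
    have h4 : (1 + |t|) * ker a t ≤ 2 * 16 :=
      mul_le_mul (by linarith) h1 hk0 (by norm_num)
    have h5 : (1 + |t|) * ker a t * (1 + t ^ 2) ≤ (2 * 16) * 2 :=
      mul_le_mul h4 (by linarith) (by positivity) (by norm_num)
    linarith
  · have ht : t ≠ 0 := by
      intro h0
      rw [h0, abs_zero] at h
      linarith
    have h1 := ker_le' (mul_ne_zero ha.ne' ht)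
    have h0 : 0 < |t| := by linarith
    have h2 : t ^ 2 = |t| ^ 2 := (sq_abs t).symm
    have h3 : (a * t) ^ 4 = a ^ 4 * |t| ^ 4 := by
      rw [mul_pow, Even.pow_abs (by decide)]
    rw [h3] at h1
    rw [h2]
    set x := |t| with hx
    have h4 : (1 + x) * ker a t * (1 + x ^ 2) ≤ (2 * x) * (16 / (a ^ 4 * x ^ 4)) * (2 * x ^ 2) := by
      have e1 : 1 + x ≤ 2 * x := by linarith
      have e2 : 1 + x ^ 2 ≤ 2 * x ^ 2 := by nlinarith
      gcongr
    refine h4.trans ?_
    have h5 : (2 * x) * (16 / (a ^ 4 * x ^ 4)) * (2 * x ^ 2) = 64 / a ^ 4 * (1 / x) := by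
      field_simp
      norm_num
    rw [h5]
    have h6 : 1 / x ≤ 1 := by rw [div_le_one h0]; exact h.le
    have h7 : 0 ≤ 64 / a ^ 4 := by positivity
    nlinarith

theorem ker_weight {a : ℝ} (ha : 0 < a) : Integrable fun t : ℝ => (1 + |t|) * ker a t := by
  obtain ⟨C, _, hC⟩ := ker_bound ha
  refine Integrable.mono' (integrable_inv_one_add_sq.const_mul C) ?_
    (Eventually.of_forall fun t => ?_)
  · have := ker_continuous a
    exact Continuous.aestronglyMeasurable (by fun_prop)
  · rw [Real.norm_of_nonneg (mul_nonneg (by positivity) (ker_nonneg a t))]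
    exact hC t

theorem ker_integrable {a : ℝ} (ha : 0 < a) : Integrable (ker a) := by
  refine Integrable.mono' (ker_weight ha) (ker_continuous a).aestronglyMeasurable
    (Eventually.of_forall fun t => ?_)
  rw [Real.norm_of_nonneg (ker_nonneg a t)]
  have := ker_nonneg a t
  nlinarith [abs_nonneg t]

theorem weight_shift {a : ℝ} (ha : 0 < a) (v : ℝ) :
    Integrable fun u : ℝ => (1 + |u|) * ker a (u - v) := by
  have h1 : Integrable fun u : ℝ => (1 + |v|) * ((1 + |u - v|) * ker a (u - v)) :=
    ((ker_weight ha).comp_sub_right v).const_mul _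
  refine Integrable.mono' h1 ?_ (Eventually.of_forall fun u => ?_)
  · have := ker_continuous a
    exact Continuous.aestronglyMeasurable (by fun_prop)
  · have h2 := ker_nonneg a (u - v)
    rw [Real.norm_of_nonneg (mul_nonneg (by positivity) h2), ← mul_assoc]
    refine mul_le_mul_of_nonneg_right ?_ h2
    have h3 : |u| ≤ |u - v| + |v| := by
      have := abs_add_le (u - v) v
      rwa [sub_add_cancel] at this
    nlinarith [abs_nonneg (u - v), abs_nonneg v]

/-- local integrability -/
theorem local_int {f : ℝ → ℝ} (hi : ∀ w > 0, LInt f w) (U : ℝ) : IntegrableOn f (Ioc 0 U) := by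
  have h1 : IntegrableOn (fun u => f u * Real.exp (-(1 * u))) (Ioc 0 U) :=
    (hi 1 one_pos).mono_set Ioc_subset_Ioi_self
  have h2 : IntegrableOn (fun u => Real.exp u * (f u * Real.exp (-(1 * u)))) (Ioc 0 U) := by
    refine Integrable.bdd_mul (c := Real.exp U) h1 (Real.continuous_exp.aestronglyMeasurable) ?_
    refine ae_restrict_of_forall_mem measurableSet_Ioc fun u hu => ?_
    rw [Real.norm_of_nonneg (Real.exp_pos _).le]
    exact Real.exp_le_exp.mpr hu.2
  refine h2.congr (Eventually.of_forall fun u => ?_)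
  simp only []
  rw [mul_left_comm, ← Real.exp_add]
  simp

/-- the hypotheses on the Laplace transform -/
structure Hyp (f : ℝ → ℝ) (h : ℂ → ℂ) (ρ : ℝ) : Prop where
  meas : Measurable f
  int : ∀ w > 0, LInt f w
  pos : 0 < ρ
  cont : ContinuousOn h (Metric.ball 0 ρ)
  eq : ∀ z : ℂ, 0 < z.re → ‖z‖ < ρ → lapC f z = h z

variable {f : ℝ → ℝ} {h : ℂ → ℂ} {ρ : ℝ}

theorem Hyp.bound (H : Hyp f h ρ) : ∃ C : ℝ, 0 ≤ C ∧ ∀ z : ℂ, ‖z‖ ≤ ρ / 2 → ‖h z‖ ≤ C := by
  have h1 : ContinuousOn h (Metric.closedBall 0 (ρ / 2)) := by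
    refine H.cont.mono fun z hz => ?_
    have := H.pos
    rw [mem_closedBall_zero_iff] at hz
    rw [mem_ball_zero_iff]
    linarith
  obtain ⟨C, hC⟩ := (isCompact_closedBall (0 : ℂ) (ρ / 2)).exists_bound_of_continuousOn h1
  refine ⟨max C 0, le_max_right _ _, fun z hz => (hC z ?_).trans (le_max_left _ _)⟩
  rwa [mem_closedBall_zero_iff]

theorem norm_small {ρ a w s : ℝ} (ha : 0 < a) (ha4 : 4 * a ≤ ρ / 4) (hw : 0 ≤ w) (hw' : w ≤ ρ / 4)
    (hs : |s| ≤ 4) : ‖(w : ℂ) - (a * s : ℝ) * Complex.I‖ ≤ ρ / 2 := by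
  refine (norm_sub_le _ _).trans ?_
  rw [norm_mul, Complex.norm_I, mul_one, Complex.norm_real, Complex.norm_real,
    Real.norm_of_nonneg hw, Real.norm_eq_abs, abs_mul, abs_of_pos ha]
  have : a * |s| ≤ a * 4 := mul_le_mul_of_nonneg_left hs ha.le
  linarith

theorem norm_e (x : ℝ) : ‖Complex.exp (-(x : ℂ) * Complex.I)‖ = 1 := by
  have := Complex.norm_exp_ofReal_mul_I (-x)
  push_cast at this
  exact this

theorem Hyp.smooth_bound (H : Hyp f h ρ) {C : ℝ} (hC : ∀ z : ℂ, ‖z‖ ≤ ρ / 2 → ‖h z‖ ≤ C)
    {a : ℝ} (ha : 0 < a) (ha4 : 4 * a ≤ ρ / 4) {w : ℝ} (hw : 0 < w) (hw' : w ≤ ρ / 4) (v : ℝ) :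
    |∫ u in Ioi 0, f u * Real.exp (-(w * u)) * ker a (u - v)| ≤ C * 16 := by
  have h1 := fubini H.meas (H.int w hw) a v
  rw [← Real.norm_eq_abs, ← Complex.norm_real, h1, ← mu_univ]
  refine norm_integral_le_of_norm_le_const ?_
  filter_upwards [sm_abs] with y hy
  have hn := norm_small ha ha4 hw.le hw' hy
  have hp := H.pos
  rw [norm_mul, norm_e, one_mul, H.eq _ (by simpa using hw) (by linarith)]
  exact hC _ hn

/-- upper bound for `f` -/
def Upper (f : ℝ → ℝ) : Prop := ∃ K u0 : ℝ, 0 ≤ K ∧ 0 ≤ u0 ∧ ∀ u, u0 ≤ u → f u ≤ K * (1 + u)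

theorem pos_int (H : Hyp f h ρ) (hU : Upper f) {a : ℝ} (ha : 0 < a) (v : ℝ) :
    IntegrableOn (fun u => max (f u) 0 * ker a (u - v)) (Ioi 0) := by
  obtain ⟨K, u0, hK, hu0, hle⟩ := hU
  have h1 : IntegrableOn (fun u => K * ((1 + |u|) * ker a (u - v))) (Ioi 0) :=
    ((weight_shift ha v).const_mul K).integrableOn
  have h2 : IntegrableOn (fun u => |(Ioc 0 u0).indicator f u| * 16) (Ioi 0) := by
    have : Integrable ((Ioc 0 u0).indicator f) :=
      (integrable_indicator_iff measurableSet_Ioc).mpr (local_int H.int u0)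
    exact (this.abs.mul_const 16).integrableOn
  refine Integrable.mono' (h1.add h2) ?_ ?_
  · have hk : Measurable fun u => ker a (u - v) := by
      have := (ker_continuous a).measurable
      fun_prop
    exact ((H.meas.max measurable_const).mul hk).aestronglyMeasurable
  · refine ae_restrict_of_forall_mem measurableSet_Ioi fun u hu => ?_
    have hu' : 0 < u := hu
    have hk0 := ker_nonneg a (u - v)
    rw [Real.norm_of_nonneg (mul_nonneg (le_max_right _ _) hk0)]
    simp only [Pi.add_apply]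
    rcases le_or_gt u u0 with h3 | h3
    · rw [indicator_of_mem (show u ∈ Ioc 0 u0 from ⟨hu', h3⟩)]
      have e1 : max (f u) 0 ≤ |f u| := max_le (le_abs_self _) (abs_nonneg _)
      have e2 : max (f u) 0 * ker a (u - v) ≤ |f u| * 16 :=
        mul_le_mul e1 (ker_le _ _) hk0 (abs_nonneg _)
      have e3 : 0 ≤ K * ((1 + |u|) * ker a (u - v)) := by positivity
      linarith
    · have e1 : max (f u) 0 ≤ K * (1 + |u|) := by
        rw [abs_of_pos hu']
        exact max_le (hle u h3.le) (by positivity)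
      have e2 := mul_le_mul_of_nonneg_right e1 hk0
      have e3 : 0 ≤ |(Ioc 0 u0).indicator f u| * 16 := by positivity
      linarith

theorem exp_int (H : Hyp f h ρ) {a : ℝ} {w : ℝ} (hw : 0 < w) (v : ℝ) {g : ℝ → ℝ}
    (hg : Measurable g) (hgf : ∀ u, |g u| ≤ |f u|) :
    IntegrableOn (fun u => g u * Real.exp (-(w * u)) * ker a (u - v)) (Ioi 0) := by
  have hk : Measurable fun u => ker a (u - v) := by
    have := (ker_continuous a).measurable
    fun_prop
  have h1 : IntegrableOn (fun u => |f u * Real.exp (-(w * u))| * 16) (Ioi 0) := by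
    have := H.int w hw
    unfold LInt at this
    exact this.abs.mul_const 16
  refine Integrable.mono' h1 ?_ (Eventually.of_forall fun u => ?_)
  · exact ((hg.mul (by fun_prop)).mul hk).aestronglyMeasurable
  · rw [norm_mul, norm_mul, Real.norm_eq_abs, Real.norm_eq_abs, Real.norm_eq_abs, abs_mul,
      abs_of_nonneg (ker_nonneg a _)]
    have := ker_le a (u - v)
    have := hgf u
    gcongr
    exact ker_nonneg a _

theorem full_int (H : Hyp f h ρ) (hU : Upper f) {a : ℝ} (ha : 0 < a) (ha4 : 4 * a ≤ ρ / 4)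
    (v : ℝ) : IntegrableOn (fun u => f u * ker a (u - v)) (Ioi 0) := by
  have hk : Measurable fun u => ker a (u - v) := by
    have := (ker_continuous a).measurable
    fun_prop
  obtain ⟨C, hC0, hC⟩ := H.bound
  have hp := pos_int H hU ha v
  set P := ∫ u in Ioi 0, max (f u) 0 * ker a (u - v) with hP
  have hneg : IntegrableOn (fun u => max (-f u) 0 * ker a (u - v)) (Ioi 0) := by
    have hlin : ∀ n : ℕ, IntegrableOn (fun u => max (-f u) 0 * ker a (u - v)) (Ioc 0 (n : ℝ)) := by
      intro n
      have h1 : IntegrableOn (fun u => |f u| * 16) (Ioc 0 (n : ℝ)) :=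
        (local_int H.int n).abs.mul_const 16
      refine Integrable.mono' h1 ?_ (Eventually.of_forall fun u => ?_)
      · exact ((H.meas.neg.max measurable_const).mul hk).aestronglyMeasurable
      · rw [Real.norm_of_nonneg (mul_nonneg (le_max_right _ _) (ker_nonneg a _))]
        exact mul_le_mul (max_le (neg_le_abs _) (abs_nonneg _)) (ker_le _ _) (ker_nonneg a _)
          (abs_nonneg _)
    refine integrableOn_Ioi_of_intervalIntegral_norm_bounded (Real.exp 1 * (P + C * 16)) 0 hlin
      tendsto_natCast_atTop_atTop ?_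
    have hpos := H.pos
    filter_upwards [eventually_gt_atTop 0, (tendsto_natCast_atTop_atTop (R := ℝ)).eventually
      (eventually_ge_atTop (4 / ρ))] with n hn0 hn
    have hn' : (0 : ℝ) < n := by exact_mod_cast hn0
    set w : ℝ := 1 / n with hw
    have hw0 : 0 < w := by positivity
    have hw4 : w ≤ ρ / 4 := by
      rw [hw, div_le_div_iff₀ hn' (by norm_num)]
      rw [div_le_iff₀ hpos] at hn
      linarith
    rw [intervalIntegral.integral_of_le hn'.le]
    have e1 : ∫ u in Ioc 0 (n : ℝ), ‖max (-f u) 0 * ker a (u - v)‖ ≤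
        ∫ u in Ioc 0 (n : ℝ), Real.exp 1 * (max (-f u) 0 * Real.exp (-(w * u)) * ker a (u - v)) := by
      have hi1 : IntegrableOn (fun u => max (-f u) 0 * Real.exp (-(w * u)) * ker a (u - v))
          (Ioi 0) := exp_int H hw0 v (g := fun u => max (-f u) 0) (H.meas.neg.max measurable_const)
            (fun u => by rw [abs_of_nonneg (le_max_right _ _)]; exact max_le (neg_le_abs _) (abs_nonneg _))
      refine setIntegral_mono_on (hlin n).norm ((hi1.mono_set Ioc_subset_Ioi_self).const_mul _)
        measurableSet_Ioc fun u hu => ?_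
      rw [Real.norm_of_nonneg (mul_nonneg (le_max_right _ _) (ker_nonneg a _))]
      have e2 : 1 ≤ Real.exp 1 * Real.exp (-(w * u)) := by
        rw [← Real.exp_add]
        apply Real.one_le_exp
        have : w * u ≤ 1 := by
          rw [hw, one_div, inv_mul_le_iff₀ hn']
          linarith [hu.2]
        linarith
      have e3 : 0 ≤ max (-f u) 0 * ker a (u - v) := mul_nonneg (le_max_right _ _) (ker_nonneg a _)
      calc max (-f u) 0 * ker a (u - v) = 1 * (max (-f u) 0 * ker a (u - v)) := by ring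
        _ ≤ (Real.exp 1 * Real.exp (-(w * u))) * (max (-f u) 0 * ker a (u - v)) :=
            mul_le_mul_of_nonneg_right e2 e3
        _ = _ := by ring
    refine e1.trans ?_
    rw [integral_const_mul]
    refine mul_le_mul_of_nonneg_left ?_ (Real.exp_pos _).le
    have hi1 : IntegrableOn (fun u => max (-f u) 0 * Real.exp (-(w * u)) * ker a (u - v))
        (Ioi 0) := exp_int H hw0 v (g := fun u => max (-f u) 0) (H.meas.neg.max measurable_const)
          (fun u => by rw [abs_of_nonneg (le_max_right _ _)]; exact max_le (neg_le_abs _) (abs_nonneg _))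
    have hi2 : IntegrableOn (fun u => max (f u) 0 * Real.exp (-(w * u)) * ker a (u - v))
        (Ioi 0) := exp_int H hw0 v (g := fun u => max (f u) 0) (H.meas.max measurable_const)
          (fun u => by rw [abs_of_nonneg (le_max_right _ _)]; exact max_le (le_abs_self _) (abs_nonneg _))
    have e4 : ∫ u in Ioc 0 (n : ℝ), max (-f u) 0 * Real.exp (-(w * u)) * ker a (u - v) ≤
        ∫ u in Ioi 0, max (-f u) 0 * Real.exp (-(w * u)) * ker a (u - v) := by
      refine setIntegral_mono_set hi1 ?_ (Ioc_subset_Ioi_self.eventuallyLE)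
      exact Eventually.of_forall fun u => mul_nonneg (mul_nonneg (le_max_right _ _)
        (Real.exp_pos _).le) (ker_nonneg a _)
    refine e4.trans ?_
    have e5 : ∫ u in Ioi 0, max (-f u) 0 * Real.exp (-(w * u)) * ker a (u - v) =
        (∫ u in Ioi 0, max (f u) 0 * Real.exp (-(w * u)) * ker a (u - v)) -
        ∫ u in Ioi 0, f u * Real.exp (-(w * u)) * ker a (u - v) := by
      rw [← integral_sub hi2 (exp_int H hw0 v H.meas fun u => le_rfl)]
      refine integral_congr_ae (Eventually.of_forall fun u => ?_)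
      simp only []
      rw [← sub_mul, ← sub_mul]
      congr 2
      rcases le_total (f u) 0 with h | h
      · rw [max_eq_right h, max_eq_left (by linarith)]; ring
      · rw [max_eq_left h, max_eq_right (by linarith)]; ring
    rw [e5]
    have e6 : ∫ u in Ioi 0, max (f u) 0 * Real.exp (-(w * u)) * ker a (u - v) ≤ P := by
      refine setIntegral_mono_on hi2 hp measurableSet_Ioi fun u hu => ?_
      have hu' : 0 < u := hu
      refine mul_le_mul_of_nonneg_right ?_ (ker_nonneg a _)
      refine mul_le_of_le_one_right (le_max_right _ _) ?_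
      exact Real.exp_le_one_iff.mpr (by nlinarith)
    have e7 := (abs_le.mp (H.smooth_bound hC ha ha4 hw0 hw4 v)).1
    linarith
  have := hp.sub hneg
  refine this.congr (Eventually.of_forall fun u => ?_)
  simp only [Pi.sub_apply]
  rw [← sub_mul]
  congr 1
  rcases le_total (f u) 0 with h | h
  · rw [max_eq_right h, max_eq_left (by linarith)]; ring
  · rw [max_eq_left h, max_eq_right (by linarith)]; ring

/-- the boundary values -/
noncomputable def gg (h : ℂ → ℂ) (a : ℝ) (s : ℝ) : ℂ := h (-((max (min s (4 * a)) (-(4 * a)) : ℝ) : ℂ) * Complex.I)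

theorem gg_eq {a s : ℝ} (hs : |s| ≤ 4 * a) : gg h a s = h (-(s : ℂ) * Complex.I) := by
  unfold gg
  rw [min_eq_left (abs_le.mp hs).2, max_eq_left (abs_le.mp hs).1]

theorem clamp_abs {a : ℝ} (ha : 0 < a) (s : ℝ) : |max (min s (4 * a)) (-(4 * a))| ≤ 4 * a := by
  rw [abs_le]
  exact ⟨le_max_right _ _, max_le (min_le_right _ _) (by linarith)⟩

theorem gg_norm {a : ℝ} (ha : 0 < a) (s : ℝ) :
    ‖-((max (min s (4 * a)) (-(4 * a)) : ℝ) : ℂ) * Complex.I‖ ≤ 4 * a := by
  rw [norm_mul, norm_neg, Complex.norm_I, mul_one, Complex.norm_real]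
  exact clamp_abs ha s

theorem gg_continuous (H : Hyp f h ρ) {a : ℝ} (ha : 0 < a) (ha4 : 4 * a ≤ ρ / 4) :
    Continuous (gg h a) := by
  unfold gg
  refine H.cont.comp_continuous (f := fun s : ℝ => -((max (min s (4 * a)) (-(4 * a)) : ℝ) : ℂ) * Complex.I) (by fun_prop) fun s => ?_
  rw [mem_ball_zero_iff]
  have := gg_norm ha s
  have := H.pos
  linarith

/-- the smoothing identity -/
theorem smooth_eq (H : Hyp f h ρ) (hU : Upper f) {a : ℝ} (ha : 0 < a) (ha4 : 4 * a ≤ ρ / 4)
    (v : ℝ) : ((∫ u in Ioi 0, f u * ker a (u - v) : ℝ) : ℂ) =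
      ∫ y, Complex.exp (-(a * v * sm y : ℝ) * Complex.I) * gg h a (a * sm y) ∂mu := by
  have hk : Measurable fun u => ker a (u - v) := by
    have := (ker_continuous a).measurable
    fun_prop
  obtain ⟨C, hC0, hC⟩ := H.bound
  have hp := H.pos
  have hfi := full_int H hU ha ha4 v
  have hL : Tendsto (fun w : ℝ => ∫ u in Ioi 0, f u * Real.exp (-(w * u)) * ker a (u - v)) (𝓝[>] 0)
      (𝓝 (∫ u in Ioi 0, f u * ker a (u - v))) := by
    refine tendsto_integral_filter_of_dominated_convergence (fun u => ‖f u * ker a (u - v)‖) ?_ ?_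
      hfi.norm ?_
    · refine Eventually.of_forall fun w => ?_
      exact ((H.meas.mul (by fun_prop)).mul hk).aestronglyMeasurable
    · filter_upwards [self_mem_nhdsWithin] with w hw
      have hw' : (0 : ℝ) < w := hw
      refine ae_restrict_of_forall_mem measurableSet_Ioi fun u hu => ?_
      have hu' : (0 : ℝ) < u := hu
      rw [mul_right_comm, norm_mul, Real.norm_of_nonneg (Real.exp_pos _).le]
      refine mul_le_of_le_one_right (norm_nonneg _) ?_
      exact Real.exp_le_one_iff.mpr (by nlinarith)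
    · refine Eventually.of_forall fun u => ?_
      have h1 : Continuous fun w : ℝ => f u * Real.exp (-(w * u)) * ker a (u - v) := by fun_prop
      have h2 := h1.tendsto 0
      simp only [zero_mul, neg_zero, Real.exp_zero, mul_one] at h2
      exact tendsto_nhdsWithin_of_tendsto_nhds h2
  have hL' := (Complex.continuous_ofReal.tendsto _).comp hL
  have hR : Tendsto (fun w : ℝ => ∫ y, Complex.exp (-(a * v * sm y : ℝ) * Complex.I) *
        h (w - (a * sm y : ℝ) * Complex.I) ∂mu) (𝓝[>] 0)
      (𝓝 (∫ y, Complex.exp (-(a * v * sm y : ℝ) * Complex.I) * gg h a (a * sm y) ∂mu)) := by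
    have hsm := sm_continuous
    have hw4 : ∀ᶠ w : ℝ in 𝓝[>] 0, 0 < w ∧ w ≤ ρ / 4 := by
      filter_upwards [self_mem_nhdsWithin, mem_nhdsWithin_of_mem_nhds
        (Iic_mem_nhds (show (0 : ℝ) < ρ / 4 by linarith))] with w h1 h2 using ⟨h1, h2⟩
    refine tendsto_integral_filter_of_dominated_convergence (fun _ => C) ?_ ?_
      (integrable_const _) ?_
    · filter_upwards [hw4] with w hw
      -- the integrand equals a continuous function almost everywhere
      have hc : Continuous fun y : ℝ × ℝ × ℝ × ℝ => Complex.exp (-(a * v * sm y : ℝ) * Complex.I) *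
          h (w + -((max (min (a * sm y) (4 * a)) (-(4 * a)) : ℝ) : ℂ) * Complex.I) := by
        refine Continuous.mul (by fun_prop) ?_
        refine H.cont.comp_continuous (f := fun y : ℝ × ℝ × ℝ × ℝ =>
          ((w : ℂ) + -((max (min (a * sm y) (4 * a)) (-(4 * a)) : ℝ) : ℂ) * Complex.I))
          (by fun_prop) fun y => ?_
        rw [mem_ball_zero_iff]
        have h1 := gg_norm ha (a * sm y)
        have h2 : ‖(w : ℂ)‖ = w := by rw [Complex.norm_real, Real.norm_of_nonneg hw.1.le]
        have h3 := norm_add_le (w : ℂ) (-((max (min (a * sm y) (4 * a)) (-(4 * a)) : ℝ) : ℂ) * Complex.I)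
        linarith [hw.2]
      refine hc.aestronglyMeasurable.congr ?_
      filter_upwards [sm_abs] with y hy
      have h1 : |a * sm y| ≤ 4 * a := by
        rw [abs_mul, abs_of_pos ha]
        have := mul_le_mul_of_nonneg_left hy ha.le
        linarith
      rw [min_eq_left (abs_le.mp h1).2, max_eq_left (abs_le.mp h1).1]
      congr 2
      ring
    · filter_upwards [hw4] with w hw
      filter_upwards [sm_abs] with y hy
      rw [norm_mul, norm_e, one_mul]
      exact hC _ (norm_small ha ha4 hw.1.le hw.2 hy)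
    · filter_upwards [sm_abs] with y hy
      have h1 : |a * sm y| ≤ 4 * a := by
        rw [abs_mul, abs_of_pos ha]
        have := mul_le_mul_of_nonneg_left hy ha.le
        linarith
      refine Tendsto.const_mul _ ?_
      rw [gg_eq h1]
      have h2 : ContinuousAt h (-((a * sm y : ℝ) : ℂ) * Complex.I) := by
        refine H.cont.continuousAt (Metric.isOpen_ball.mem_nhds ?_)
        rw [mem_ball_zero_iff, norm_mul, norm_neg, Complex.norm_I, mul_one, Complex.norm_real,
          Real.norm_eq_abs]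
        linarith
      have h3 : Tendsto (fun w : ℝ => (w : ℂ) - (a * sm y : ℝ) * Complex.I) (𝓝[>] 0)
          (𝓝 (-((a * sm y : ℝ) : ℂ) * Complex.I)) := by
        have h4 : Continuous fun w : ℝ => (w : ℂ) - (a * sm y : ℝ) * Complex.I := by fun_prop
        have h5 := h4.tendsto 0
        rw [Complex.ofReal_zero, zero_sub, ← neg_mul] at h5
        exact tendsto_nhdsWithin_of_tendsto_nhds h5
      exact h2.tendsto.comp h3
  refine tendsto_nhds_unique hL' (hR.congr' ?_)
  filter_upwards [self_mem_nhdsWithin, mem_nhdsWithin_of_mem_nhds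
    (Iic_mem_nhds (show (0 : ℝ) < ρ / 4 by linarith))] with w hw1 hw2
  have hw1' : (0 : ℝ) < w := hw1
  have hw2' : w ≤ ρ / 4 := hw2
  simp only [Function.comp_apply]
  rw [fubini H.meas (H.int w hw1') a v]
  refine integral_congr_ae ?_
  filter_upwards [sm_abs] with y hy
  have hn := norm_small ha ha4 hw1'.le hw2' hy
  rw [H.eq _ (by simpa using hw1') (by linarith)]

theorem smooth_tendsto (H : Hyp f h ρ) (hU : Upper f) {a : ℝ} (ha : 0 < a)
    (ha4 : 4 * a ≤ ρ / 4) :
    Tendsto (fun v : ℝ => ∫ u in Ioi 0, f u * ker a (u - v)) atTop (𝓝 0) := by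
  obtain ⟨C, hC0, hC⟩ := H.bound
  have hp := H.pos
  have h1 := rl (gg_continuous H ha ha4) (C := C) (fun s => hC _ (by
    have := gg_norm ha s
    linarith)) ha
  have h2 := (Complex.continuous_re.tendsto 0).comp h1
  rw [Complex.zero_re] at h2
  refine h2.congr fun v => ?_
  simp only [Function.comp_apply]
  rw [← smooth_eq H hU ha ha4 v, Complex.ofReal_re]

theorem smooth_bounded (H : Hyp f h ρ) (hU : Upper f) {a : ℝ} (ha : 0 < a)
    (ha4 : 4 * a ≤ ρ / 4) : ∃ C : ℝ, 0 ≤ C ∧ ∀ v : ℝ, |∫ u in Ioi 0, f u * ker a (u - v)| ≤ C := by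
  obtain ⟨C, hC0, hC⟩ := H.bound
  have hp := H.pos
  refine ⟨C * 16, by positivity, fun v => ?_⟩
  rw [← Real.norm_eq_abs, ← Complex.norm_real, smooth_eq H hU ha ha4 v, ← mu_univ]
  refine norm_integral_le_of_norm_le_const (Eventually.of_forall fun y => ?_)
  rw [norm_mul, norm_e, one_mul]
  exact hC _ (by
    have := gg_norm ha (a * sm y)
    linarith)

end Pool.Agent.W136.FR
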