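import Pool.Agent.W136.FR.Limit

/-! A one-sided theorem of Fatou and Riesz for Laplace transforms, with local information only. -/

set_option autoImplicit false

namespace Pool.Agent.W136.FR

open MeasureTheory Filter Topology Set
open Pool.Agent.W263.BSD (LInt lapC lap)

theorem chain {f : ℝ → ℝ} {b ε u0 : ℝ} (hb : 0 < b) (hε : 0 ≤ ε)
    (h : ∀ u v, u0 ≤ u → u ≤ v → v ≤ u + b → f v ≤ f u + ε) :
    ∀ n : ℕ, ∀ u v, u0 ≤ u → u ≤ v → v ≤ u + n * b → f v ≤ f u + n * ε := by
  intro n
  induction n with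
  | zero =>
    intro u v _ h2 h3
    have : v = u := le_antisymm (by simpa using h3) h2
    rw [this]; simp
  | succ n ih =>
    intro u v h1 h2 h3
    push_cast at h3 ⊢
    rcases le_total v (u + b) with h4 | h4
    · have := h u v h1 h2 h4
      have : 0 ≤ (n : ℝ) * ε := by positivity
      linarith
    · have e1 := ih (u + b) v (by linarith) h4 (by linarith)
      have e2 := h u (u + b) h1 (by linarith) le_rfl
      linarith

theorem chain' {f : ℝ → ℝ} {b ε u0 : ℝ} (hb : 0 < b) (hε : 0 ≤ ε)
    (h : ∀ u v, u0 ≤ u → u ≤ v → v ≤ u + b → f v ≤ f u + ε) {u v : ℝ} (h1 : u0 ≤ u)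
    (h2 : u ≤ v) : f v ≤ f u + (1 + (v - u) / b) * ε := by
  have h3 : 0 ≤ (v - u) / b := div_nonneg (by linarith) hb.le
  have h4 := chain hb hε h ⌈(v - u) / b⌉₊ u v h1 h2 (by
    have := Nat.le_ceil ((v - u) / b)
    rw [div_le_iff₀ hb] at this
    linarith)
  refine h4.trans ?_
  have h5 := (Nat.ceil_lt_add_one h3).le
  have := mul_le_mul_of_nonneg_right h5 hε
  linarith

/-- slow increase over bounded distances -/
def Slow (f : ℝ → ℝ) (b : ℝ) : Prop :=
  ∀ ε > 0, ∃ u0 : ℝ, ∀ u v, u0 ≤ u → u ≤ v → v ≤ u + b → f v ≤ f u + ε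

theorem Slow.upper {f : ℝ → ℝ} {b : ℝ} (hb : 0 < b) (hs : Slow f b) : Upper f := by
  obtain ⟨u0, h0⟩ := hs 1 one_pos
  set u1 := max u0 0 with hu1
  refine ⟨|f u1| + 1 + 1 / b, u1, by positivity, le_max_right _ _, fun u hu => ?_⟩
  have h1 := chain' hb zero_le_one h0 (le_max_left u0 0) hu
  have h2 : 0 ≤ u1 := le_max_right _ _
  have h3 : (u - u1) / b ≤ 1 / b * u := by
    rw [div_mul_eq_mul_div, one_mul]
    exact div_le_div_of_nonneg_right (by linarith) hb.le
  have h4 := le_abs_self (f u1)
  have h5 : 0 ≤ u := by linarith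
  have h6 : 0 ≤ 1 / b := by positivity
  have h7 : 0 ≤ |f u1| * u := by positivity
  nlinarith

variable {f : ℝ → ℝ} {h : ℂ → ℂ} {ρ : ℝ}

theorem ker_shift_int {a : ℝ} (ha : 0 < a) (v : ℝ) : Integrable fun u : ℝ => ker a (u - v) :=
  (ker_integrable ha).comp_sub_right v

/-- part of the integral near zero -/
theorem low_abs (H : Hyp f h ρ) {a : ℝ} (U v : ℝ) :
    |∫ u in Ioc 0 U, f u * ker a (u - v)| ≤ 16 * ∫ u in Ioc 0 U, |f u| := by
  rw [← Real.norm_eq_abs]
  refine (norm_integral_le_integral_norm _).trans ?_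
  rw [← integral_const_mul]
  refine integral_mono_of_nonneg (Eventually.of_forall fun u => norm_nonneg _)
    ((local_int H.int U).abs.const_mul 16) (Eventually.of_forall fun u => ?_)
  simp only []
  rw [norm_mul, Real.norm_eq_abs, Real.norm_of_nonneg (ker_nonneg _ _), mul_comm]
  exact mul_le_mul_of_nonneg_right (ker_le _ _) (abs_nonneg _)

theorem split_int {g : ℝ → ℝ} (hg : IntegrableOn g (Ioi 0)) {U : ℝ} (hU : 0 ≤ U) :
    ∫ u in Ioi 0, g u = (∫ u in Ioc 0 U, g u) + ∫ u in Ioi U, g u := by
  rw [← Ioc_union_Ioi_eq_Ioi hU]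
  exact setIntegral_union (Ioc_disjoint_Ioi le_rfl) measurableSet_Ioi
    (hg.mono_set Ioc_subset_Ioi_self) (hg.mono_set (Ioi_subset_Ioi hU))

/-- lower bounds for increments at one point -/
theorem one_point (H : Hyp f h ρ) (hU : Upper f) {a b : ℝ} (ha : 0 < a) (ha4 : 4 * a ≤ ρ / 4)
    (hb : 0 < b) (hab : a * b ≤ 1) {u1 : ℝ} (hu1 : 0 ≤ u1)
    (h1 : ∀ u v, u1 ≤ u → u ≤ v → v ≤ u + b → f v ≤ f u + 1) :
    ∃ C : ℝ, 0 ≤ C ∧ ∀ v, u1 ≤ v → ∃ u, v ≤ u ∧ u ≤ v + b / 2 ∧ f u - C ≤ f (u + b) := by
  obtain ⟨CE, hCE0, hCE⟩ := smooth_bounded H hU ha ha4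
  set I0 := ∫ t, ker a t with hI0
  have hI00 : 0 ≤ I0 := integral_nonneg (ker_nonneg a)
  set N1 := ∫ u in Ioc 0 u1, |f u| with hN1
  set N2 := ∫ u in Ioc 0 (u1 + b), |f u| with hN2
  have hN10 : 0 ≤ N1 := integral_nonneg fun u => abs_nonneg _
  have hN20 : 0 ≤ N2 := integral_nonneg fun u => abs_nonneg _
  set C1 := I0 + 2 * CE + 16 * N1 + 16 * N2 with hC1
  refine ⟨2 * C1 / b, by positivity, fun v hv => ?_⟩
  by_contra hcon
  push Not at hcon
  have hfi := fun v => full_int H hU ha ha4 v
  -- the shifted function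
  have mp : MeasurePreserving (fun u : ℝ => u + b) volume volume :=
    measurePreserving_add_right volume b
  have me : MeasurableEmbedding (fun u : ℝ => u + b) := measurableEmbedding_addRight b
  have hpre : (fun u : ℝ => u + b) ⁻¹' (Ioi (u1 + b)) = Ioi u1 := by
    ext u
    simp
  have e2 : (fun u => f (u + b) * ker a (u - v)) =
      (fun u => f u * ker a (u - (v + b))) ∘ (fun u => u + b) := by
    funext u
    simp only [Function.comp_apply]
    congr 2; ring
  have hsh : IntegrableOn (fun u => f (u + b) * ker a (u - v)) (Ioi u1) := by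
    have e1 : IntegrableOn (fun u => f u * ker a (u - (v + b))) (Ioi (u1 + b)) :=
      (hfi (v + b)).mono_set (Ioi_subset_Ioi (by linarith))
    rw [e2, ← hpre]
    exact (mp.integrableOn_comp_preimage me).mpr e1
  have hsh2 : ∫ u in Ioi u1, f (u + b) * ker a (u - v) =
      ∫ u in Ioi (u1 + b), f u * ker a (u - (v + b)) := by
    rw [e2, ← hpre]
    exact mp.setIntegral_preimage_emb me (fun u => f u * ker a (u - (v + b))) _
  have hk := (ker_shift_int ha v)
  have hf1 : IntegrableOn (fun u => f u * ker a (u - v)) (Ioi u1) :=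
    (hfi v).mono_set (Ioi_subset_Ioi hu1)
  have htot : ∫ u in Ioi u1, (1 - (f (u + b) - f u)) * ker a (u - v) ≤ C1 := by
    have e1 : ∫ u in Ioi u1, (1 - (f (u + b) - f u)) * ker a (u - v) =
        (∫ u in Ioi u1, ker a (u - v)) - (∫ u in Ioi u1, f (u + b) * ker a (u - v)) +
          ∫ u in Ioi u1, f u * ker a (u - v) := by
      have e1a := integral_sub hk.integrableOn hsh
      have e1b := integral_add (hk.integrableOn.sub hsh) hf1
      simp only [Pi.sub_apply] at e1b
      rw [← e1a, ← e1b]
      refine integral_congr_ae (Eventually.of_forall fun u => ?_)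
      simp only []
      ring
    have e2 : ∫ u in Ioi u1, ker a (u - v) ≤ I0 := by
      rw [hI0, ← integral_sub_right_eq_self (ker a) v]
      exact setIntegral_le_integral hk (Eventually.of_forall fun u => ker_nonneg _ _)
    have e3 := split_int (hfi v) hu1
    have e4 := split_int (hfi (v + b)) (show 0 ≤ u1 + b by linarith)
    have e5 := abs_le.mp (hCE v)
    have e6 := abs_le.mp (hCE (v + b))
    have e7 := abs_le.mp (low_abs H (a := a) u1 v)
    have e8 := abs_le.mp (low_abs H (a := a) (u1 + b) (v + b))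
    rw [e1, hsh2]
    linarith [e5.1, e5.2, e6.1, e6.2, e7.1, e7.2, e8.1, e8.2]
  have hlow : (1 + 2 * C1 / b) * (b / 2) ≤
      ∫ u in Ioi u1, (1 - (f (u + b) - f u)) * ker a (u - v) := by
    have hint : IntegrableOn (fun u => (1 - (f (u + b) - f u)) * ker a (u - v)) (Ioi u1) := by
      refine ((hk.integrableOn.sub hsh).add hf1).congr (Eventually.of_forall fun u => ?_)
      simp only [Pi.sub_apply, Pi.add_apply]
      ring
    have hsub : Ioc v (v + b / 2) ⊆ Ioi u1 := fun u hu => lt_of_le_of_lt hv hu.1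
    have e1 : ∫ u in Ioc v (v + b / 2), (1 - (f (u + b) - f u)) * ker a (u - v) ≤
        ∫ u in Ioi u1, (1 - (f (u + b) - f u)) * ker a (u - v) := by
      refine setIntegral_mono_set hint ?_ hsub.eventuallyLE
      refine ae_restrict_of_forall_mem measurableSet_Ioi fun u hu => ?_
      have hu' : u1 < u := hu
      have := h1 u (u + b) hu'.le (by linarith) le_rfl
      exact mul_nonneg (by linarith) (ker_nonneg _ _)
    refine le_trans ?_ e1
    have e2 : (1 + 2 * C1 / b) * (b / 2) = ∫ _ in Ioc v (v + b / 2), (1 + 2 * C1 / b) := by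
      rw [setIntegral_const, measureReal_def, Real.volume_Ioc,
        ENNReal.toReal_ofReal (by linarith), smul_eq_mul]
      ring
    rw [e2]
    refine setIntegral_mono_on (integrableOn_const (by simp) (by simp)) (hint.mono_set hsub)
      measurableSet_Ioc fun u hu => ?_
    have e3 := hcon u hu.1.le hu.2
    have e4 : 1 ≤ ker a (u - v) := by
      apply ker_ge
      rw [abs_of_nonneg (mul_nonneg ha.le (by linarith [hu.1]))]
      have : u - v ≤ b := by linarith [hu.2]
      nlinarith
    have e5 : 0 ≤ 2 * C1 / b := by positivity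
    nlinarith
  have : (1 + 2 * C1 / b) * (b / 2) = b / 2 + C1 := by field_simp
  linarith

/-- two-sided increments -/
theorem two_sided (H : Hyp f h ρ) (hU : Upper f) {a b : ℝ} (ha : 0 < a) (ha4 : 4 * a ≤ ρ / 4)
    (hb : 0 < b) (hab : a * b ≤ 1) {u1 : ℝ} (hu1 : 0 ≤ u1)
    (h1 : ∀ u v, u1 ≤ u → u ≤ v → v ≤ u + b → f v ≤ f u + 1) :
    ∃ C : ℝ, 0 ≤ C ∧ ∀ u v, u1 + b / 2 ≤ u → u1 + b / 2 ≤ v →
      |f v - f u| ≤ C * (1 + |v - u|) := by
  obtain ⟨C3, hC3, h3⟩ := one_point H hU ha ha4 hb hab hu1 h1
  have h4 : ∀ u v, u1 + b / 2 ≤ u → u ≤ v → v ≤ u + b / 2 → -f v ≤ -f u + (C3 + 3) := by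
    intro w z hw hz1 hz2
    obtain ⟨u, hu1', hu2, hu3⟩ := h3 (w - b / 2) (by linarith)
    have e1 := h1 u w (by linarith) (by linarith) (by linarith)
    have e2 := h1 (w + b / 2) (u + b) (by linarith) (by linarith) (by linarith)
    have e3 := h1 z (w + b / 2) (by linarith) hz2 (by linarith)
    linarith
  have h5 : ∀ u v, u1 + b / 2 ≤ u → u ≤ v → v ≤ u + b / 2 → f v ≤ f u + (C3 + 3) := by
    intro u v e1 e2 e3
    have := h1 u v (by linarith) e2 (by linarith)
    linarith
  have hb2 : 0 < b / 2 := by linarith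
  have hC : 0 ≤ C3 + 3 := by linarith
  have key : ∀ u v, u1 + b / 2 ≤ u → u ≤ v → |f v - f u| ≤ (C3 + 3) * (1 + 2 / b) * (1 + |v - u|) := by
    intro u v e1 e2
    have e3 := chain' hb2 hC h5 e1 e2
    have e4 : -f v ≤ -f u + (1 + (v - u) / (b / 2)) * (C3 + 3) :=
      chain' (f := fun x => -f x) hb2 hC h4 e1 e2
    have e5 : (1 + (v - u) / (b / 2)) * (C3 + 3) ≤ (C3 + 3) * (1 + 2 / b) * (1 + |v - u|) := by
      rw [abs_of_nonneg (by linarith : 0 ≤ v - u)]
      have e6 : (v - u) / (b / 2) = 2 / b * (v - u) := by field_simp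
      rw [e6]
      have e7 : 0 ≤ v - u := by linarith
      have e8 : 0 ≤ 2 / b := by positivity
      have e9 : 1 + 2 / b * (v - u) ≤ (1 + 2 / b) * (1 + (v - u)) := by nlinarith
      have := mul_le_mul_of_nonneg_left e9 hC
      linarith
    rw [abs_le]
    constructor <;> linarith
  refine ⟨(C3 + 3) * (1 + 2 / b), by positivity, fun u v e1 e2 => ?_⟩
  rcases le_total u v with h | h
  · exact key u v e1 h
  · have := key v u e2 h
    rwa [abs_sub_comm (f u), abs_sub_comm u] at this

/-- boundedness -/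
theorem bounded (H : Hyp f h ρ) (hU : Upper f) {a b : ℝ} (ha : 0 < a) (ha4 : 4 * a ≤ ρ / 4)
    (hb : 0 < b) (hab : a * b ≤ 1) {u1 : ℝ} (hu1 : 0 ≤ u1)
    (h1 : ∀ u v, u1 ≤ u → u ≤ v → v ≤ u + b → f v ≤ f u + 1) :
    ∃ M U : ℝ, 0 ≤ M ∧ 0 ≤ U ∧ ∀ u, U ≤ u → |f u| ≤ M := by
  obtain ⟨C5, hC5, h5⟩ := two_sided H hU ha ha4 hb hab hu1 h1
  obtain ⟨CE, hCE0, hCE⟩ := smooth_bounded H hU ha ha4
  set u2 := u1 + b / 2 with hu2
  have hu20 : 0 ≤ u2 := by linarith
  set W := ∫ t, (1 + |t|) * ker a t with hW
  have hW0 : 0 ≤ W := integral_nonneg fun t => mul_nonneg (by positivity) (ker_nonneg a t)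
  set N := ∫ u in Ioc 0 u2, |f u| with hN
  have hN0 : 0 ≤ N := integral_nonneg fun u => abs_nonneg _
  refine ⟨(CE + 16 * N + C5 * W) / b, u2, by positivity, hu20, fun v hv => ?_⟩
  have hfi := full_int H hU ha ha4 v
  have hk := ker_shift_int ha v
  have hf2 : IntegrableOn (fun u => f u * ker a (u - v)) (Ioi u2) :=
    hfi.mono_set (Ioi_subset_Ioi hu20)
  have e1 : b ≤ ∫ u in Ioi u2, ker a (u - v) := by
    have hsub : Ioc v (v + b) ⊆ Ioi u2 := fun u hu => lt_of_le_of_lt hv hu.1
    have e2 : ∫ u in Ioc v (v + b), ker a (u - v) ≤ ∫ u in Ioi u2, ker a (u - v) :=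
      setIntegral_mono_set hk.integrableOn (Eventually.of_forall fun u => ker_nonneg _ _)
        hsub.eventuallyLE
    refine le_trans ?_ e2
    have e3 : ∫ _ in Ioc v (v + b), (1 : ℝ) = b := by
      rw [setIntegral_const, measureReal_def, Real.volume_Ioc,
        ENNReal.toReal_ofReal (by linarith), smul_eq_mul]
      ring
    have e3' : ∫ _ in Ioc v (v + b), (1 : ℝ) ≤ ∫ u in Ioc v (v + b), ker a (u - v) := by
      refine setIntegral_mono_on (integrableOn_const (by simp) (by simp)) hk.integrableOn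
        measurableSet_Ioc fun u hu => ?_
      apply ker_ge
      rw [abs_of_nonneg (mul_nonneg ha.le (by linarith [hu.1]))]
      have : u - v ≤ b := by linarith [hu.2]
      nlinarith
    rwa [e3] at e3'
  have e4 : |∫ u in Ioi u2, f u * ker a (u - v)| ≤ CE + 16 * N := by
    have e5 := split_int hfi hu20
    have e6 := abs_le.mp (hCE v)
    have e7 := abs_le.mp (low_abs H (a := a) u2 v)
    rw [abs_le]
    constructor <;> linarith [e6.1, e6.2, e7.1, e7.2]
  have hw : Integrable fun u => C5 * ((1 + |u - v|) * ker a (u - v)) :=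
    ((ker_weight ha).comp_sub_right v).const_mul C5
  have e8 : |∫ u in Ioi u2, (f v - f u) * ker a (u - v)| ≤ C5 * W := by
    rw [← Real.norm_eq_abs]
    refine (norm_integral_le_integral_norm _).trans ?_
    have e9 : C5 * W = ∫ u, C5 * ((1 + |u - v|) * ker a (u - v)) := by
      rw [integral_const_mul, hW]
      congr 1
      exact (integral_sub_right_eq_self (fun t => (1 + |t|) * ker a t) v).symm
    rw [e9]
    refine le_trans ?_ (setIntegral_le_integral (s := Ioi u2) hw (Eventually.of_forall fun u =>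
      mul_nonneg hC5 (mul_nonneg (by positivity) (ker_nonneg _ _))))
    refine integral_mono_of_nonneg (Eventually.of_forall fun u => norm_nonneg _) hw.integrableOn ?_
    refine ae_restrict_of_forall_mem measurableSet_Ioi fun u hu => ?_
    have hu' : u2 < u := hu
    simp only []
    rw [norm_mul, Real.norm_of_nonneg (ker_nonneg _ _), Real.norm_eq_abs, ← mul_assoc]
    refine mul_le_mul_of_nonneg_right ?_ (ker_nonneg _ _)
    have := h5 u v hu'.le hv
    rwa [abs_sub_comm v u] at this
  have e10 : f v * ∫ u in Ioi u2, ker a (u - v) =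
      (∫ u in Ioi u2, f u * ker a (u - v)) + ∫ u in Ioi u2, (f v - f u) * ker a (u - v) := by
    have hint : IntegrableOn (fun u => (f v - f u) * ker a (u - v)) (Ioi u2) := by
      refine ((hk.integrableOn.const_mul (f v)).sub hf2).congr (Eventually.of_forall fun u => ?_)
      simp only [Pi.sub_apply]
      ring
    rw [← integral_add hf2 hint, ← integral_const_mul]
    refine integral_congr_ae (Eventually.of_forall fun u => ?_)
    simp only []
    ring
  rw [le_div_iff₀ hb]
  calc |f v| * b ≤ |f v| * ∫ u in Ioi u2, ker a (u - v) :=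
        mul_le_mul_of_nonneg_left e1 (abs_nonneg _)
    _ = |f v * ∫ u in Ioi u2, ker a (u - v)| := by
        rw [abs_mul, abs_of_nonneg (by linarith : 0 ≤ ∫ u in Ioi u2, ker a (u - v))]
    _ ≤ _ := by
        rw [e10]
        refine (abs_add_le _ _).trans ?_
        linarith

theorem ker_tendsto_zero {a : ℝ} (ha : 0 < a) (u : ℝ) :
    Tendsto (fun v => ker a (u - v)) atTop (𝓝 0) := by
  obtain ⟨C, hC0, hC⟩ := ker_bound ha
  have h1 : Tendsto (fun v : ℝ => C / (v - u)) atTop (𝓝 0) :=
    tendsto_const_nhds.div_atTop (tendsto_atTop_add_const_right _ _ tendsto_id)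
  refine squeeze_zero' (Eventually.of_forall fun v => ker_nonneg _ _) ?_ h1
  filter_upwards [eventually_gt_atTop u] with v hv
  have h2 := hC (u - v)
  have hk := ker_nonneg a (u - v)
  have h3 : 0 < v - u := by linarith
  rw [le_div_iff₀ h3]
  have h4 : |u - v| = v - u := by rw [abs_of_neg (by linarith)]; ring
  rw [h4] at h2
  have h5 : C * (1 + (u - v) ^ 2)⁻¹ ≤ C := by
    refine mul_le_of_le_one_right hC0.le ?_
    exact inv_le_one_of_one_le₀ (by nlinarith [sq_nonneg (u - v)])
  nlinarith

/-- tail of the kernel -/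
noncomputable def tl (a R : ℝ) : ℝ := ∫ t, (Ioc (-R) R)ᶜ.indicator (ker a) t

theorem tl_tendsto {a : ℝ} (ha : 0 < a) : Tendsto (tl a) atTop (𝓝 0) := by
  have h0 : (0 : ℝ) = ∫ _ : ℝ, (0 : ℝ) := by simp
  unfold tl
  rw [h0]
  refine tendsto_integral_filter_of_dominated_convergence (ker a) ?_ ?_ (ker_integrable ha) ?_
  · exact Eventually.of_forall fun R => ((ker_continuous a).measurable.indicator
      measurableSet_Ioc.compl).aestronglyMeasurable
  · refine Eventually.of_forall fun R => Eventually.of_forall fun t => ?_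
    rw [Real.norm_of_nonneg (indicator_nonneg (fun t _ => ker_nonneg a t) t)]
    exact indicator_le_self' (fun t _ => ker_nonneg a t) t
  · refine Eventually.of_forall fun t => ?_
    refine tendsto_const_nhds.congr' ?_
    filter_upwards [eventually_gt_atTop |t|] with R hR
    rw [indicator_of_notMem]
    intro hmem
    exact hmem ⟨by linarith [neg_abs_le t], by linarith [le_abs_self t]⟩

theorem shift_ind (a R c : ℝ) (u : ℝ) :
    (Ioc (c - R) (c + R))ᶜ.indicator (fun u => ker a (u - c)) u =
      (Ioc (-R) R)ᶜ.indicator (ker a) (u - c) := by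
  by_cases hu : u ∈ Ioc (c - R) (c + R)
  · have h1 : u ∉ (Ioc (c - R) (c + R))ᶜ := fun h => h hu
    have h2 : u - c ∉ (Ioc (-R) R)ᶜ := fun h => h ⟨by linarith [hu.1], by linarith [hu.2]⟩
    rw [indicator_of_notMem h1, indicator_of_notMem h2]
  · have h1 : u ∈ (Ioc (c - R) (c + R))ᶜ := hu
    have h2 : u - c ∈ (Ioc (-R) R)ᶜ := fun h => hu ⟨by linarith [h.1], by linarith [h.2]⟩
    rw [indicator_of_mem h1, indicator_of_mem h2]

/-- **One-sided theorem of Fatou and Riesz, local form.** -/
theorem fatou_riesz (H : Hyp f h ρ) {b : ℝ} (hb : 0 < b) (hs : Slow f b) :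
    Tendsto f atTop (𝓝 0) := by
  have hU := hs.upper hb
  have hρ := H.pos
  set a : ℝ := min (ρ / 16) (1 / b) with ha'
  have ha : 0 < a := lt_min (by positivity) (by positivity)
  have ha4 : 4 * a ≤ ρ / 4 := by
    have : a ≤ ρ / 16 := min_le_left _ _
    linarith
  have hab : a * b ≤ 1 := by
    have : a ≤ 1 / b := min_le_right _ _
    rwa [le_div_iff₀ hb] at this
  obtain ⟨M, U, hM, hU0, hMU⟩ : ∃ M U : ℝ, 0 ≤ M ∧ 0 ≤ U ∧ ∀ u, U ≤ u → |f u| ≤ M := by
    obtain ⟨u0, h0⟩ := hs 1 one_pos
    exact bounded H hU ha ha4 hb hab (le_max_right u0 0)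
      (fun u v e1 e2 e3 => h0 u v ((le_max_left _ _).trans e1) e2 e3)
  set F : ℝ → ℝ := (Ioi U).indicator f with hF
  have hFm : Measurable F := H.meas.indicator measurableSet_Ioi
  have hFM : ∀ u, |F u| ≤ M := by
    intro u
    by_cases hu : u ∈ Ioi U
    · rw [hF, indicator_of_mem hu]
      exact hMU u (le_of_lt hu)
    · rw [hF, indicator_of_notMem hu, abs_zero]; exact hM
  have hFi : ∀ v, Integrable fun u => F u * ker a (u - v) := by
    intro v
    refine Integrable.mono' ((ker_shift_int ha v).const_mul M) ?_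
      (Eventually.of_forall fun u => ?_)
    · have hk : Measurable fun u => ker a (u - v) := by
        have := (ker_continuous a).measurable
        fun_prop
      exact (hFm.mul hk).aestronglyMeasurable
    · rw [norm_mul, Real.norm_eq_abs, Real.norm_of_nonneg (ker_nonneg _ _)]
      exact mul_le_mul_of_nonneg_right (hFM u) (ker_nonneg _ _)
  set G : ℝ → ℝ := fun v => ∫ u, F u * ker a (u - v) with hG
  have hG0 : Tendsto G atTop (𝓝 0) := by
    have h1 := smooth_tendsto H hU ha ha4
    have h2 : Tendsto (fun v => ∫ u in Ioc 0 U, f u * ker a (u - v)) atTop (𝓝 0) := by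
      have key : Tendsto (fun v => ∫ u in Ioc 0 U, f u * ker a (u - v)) atTop
          (𝓝 (∫ _ in Ioc 0 U, (0 : ℝ))) := ?_
      · rwa [integral_zero] at key
      refine tendsto_integral_filter_of_dominated_convergence (fun u => |f u| * 16) ?_ ?_
        ((local_int H.int U).abs.mul_const 16) ?_
      · refine Eventually.of_forall fun v => ?_
        have hk : Measurable fun u => ker a (u - v) := by
          have := (ker_continuous a).measurable
          fun_prop
        exact (H.meas.mul hk).aestronglyMeasurable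
      · refine Eventually.of_forall fun v => Eventually.of_forall fun u => ?_
        rw [norm_mul, Real.norm_eq_abs, Real.norm_of_nonneg (ker_nonneg _ _)]
        exact mul_le_mul_of_nonneg_left (ker_le _ _) (abs_nonneg _)
      · refine Eventually.of_forall fun u => ?_
        have := (ker_tendsto_zero ha u).const_mul (f u)
        rwa [mul_zero] at this
    have h3 := h1.sub h2
    rw [sub_zero] at h3
    refine h3.congr fun v => ?_
    rw [split_int (full_int H hU ha ha4 v) hU0, add_sub_cancel_left, hG]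
    simp only []
    rw [← integral_indicator measurableSet_Ioi]
    refine integral_congr_ae (Eventually.of_forall fun u => ?_)
    simp only [hF]
    by_cases hu : u ∈ Ioi U
    · rw [indicator_of_mem hu, indicator_of_mem hu]
    · rw [indicator_of_notMem hu, indicator_of_notMem hu, zero_mul]
  set I0 := ∫ t, ker a t with hI0
  have hI0pos : 0 < I0 := by
    have e1 : ∫ _ in Ioc 0 b, (1 : ℝ) ≤ ∫ t in Ioc 0 b, ker a t := by
      refine setIntegral_mono_on (integrableOn_const (by simp) (by simp))
        (ker_integrable ha).integrableOn measurableSet_Ioc fun t ht => ?_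
      apply ker_ge
      rw [abs_of_nonneg (mul_nonneg ha.le ht.1.le)]
      have : t ≤ b := ht.2
      nlinarith
    have e2 : ∫ t in Ioc 0 b, ker a t ≤ I0 :=
      setIntegral_le_integral (ker_integrable ha) (Eventually.of_forall fun u => ker_nonneg _ _)
    rw [setIntegral_const, measureReal_def, Real.volume_Ioc,
      ENNReal.toReal_ofReal (by linarith), smul_eq_mul] at e1
    linarith
  have hk0 : ∀ c, ∫ u, ker a (u - c) = I0 := fun c => integral_sub_right_eq_self (ker a) c
  have hti : ∀ R c, Integrable fun u => (Ioc (-R) R)ᶜ.indicator (ker a) (u - c) := fun R c =>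
    ((ker_integrable ha).indicator measurableSet_Ioc.compl).comp_sub_right c
  have htl : ∀ R c, ∫ u, (Ioc (-R) R)ᶜ.indicator (ker a) (u - c) = tl a R := fun R c =>
    integral_sub_right_eq_self ((Ioc (-R) R)ᶜ.indicator (ker a)) c
  -- main estimate
  rw [Metric.tendsto_atTop']
  intro ε hε
  obtain ⟨R, hR, hR0⟩ : ∃ R : ℝ, 2 * M * tl a R < ε / 4 * I0 ∧ 0 < R := by
    have h1 := (tl_tendsto ha).const_mul (2 * M)
    rw [mul_zero] at h1
    exact ((h1.eventually (gt_mem_nhds (show 0 < ε / 4 * I0 by positivity))).and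
      (eventually_gt_atTop 0)).exists
  set n := ⌈2 * R / b⌉₊ with hn
  have hnb : 2 * R ≤ n * b := by
    have := Nat.le_ceil (2 * R / b)
    rwa [div_le_iff₀ hb] at this
  obtain ⟨u0, h0⟩ := hs (ε / 4 / (n + 1)) (by positivity)
  have hch : ∀ u v, u0 ≤ u → u ≤ v → v ≤ u + 2 * R → f v ≤ f u + ε / 4 := by
    intro u v e1 e2 e3
    have e4 := chain hb (by positivity) h0 n u v e1 e2 (by linarith)
    have e5 : (n : ℝ) * (ε / 4 / (n + 1)) ≤ ε / 4 := by
      rw [mul_div_assoc', div_le_iff₀ (by positivity)]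
      nlinarith
    linarith
  obtain ⟨V, hV⟩ := eventually_atTop.mp (hG0.eventually (Metric.ball_mem_nhds 0
    (show 0 < ε / 4 * I0 by positivity)))
  refine ⟨max (max U u0) V + 2 * R, fun v hv => ?_⟩
  have hv1 : U < v - 2 * R := by
    have := (le_max_left U u0).trans (le_max_left (max U u0) V)
    have hv' : max (max U u0) V + 2 * R < v := hv
    linarith
  have hv2 : u0 ≤ v - 2 * R := by
    have := (le_max_right U u0).trans (le_max_left (max U u0) V)
    have hv' : max (max U u0) V + 2 * R < v := hv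
    linarith
  have hv3 : V ≤ v - 2 * R := by
    have := le_max_right (max U u0) V
    have hv' : max (max U u0) V + 2 * R < v := hv
    linarith
  have hFv : F v = f v := indicator_of_mem (show v ∈ Ioi U by show U < v; linarith) f
  have hFv2 := hFM v
  -- lower bound
  have hlo : -(ε / 4) * I0 < (f v + ε / 4) * I0 + 2 * M * tl a R := by
    have e1 := hV (v + R) (by linarith)
    rw [dist_zero_right, Real.norm_eq_abs] at e1
    have e2 : G (v + R) ≤ (f v + ε / 4) * I0 + 2 * M * tl a R := by
      have e3 : (f v + ε / 4) * I0 + 2 * M * tl a R = ∫ u, ((f v + ε / 4) * ker a (u - (v + R)) +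
          2 * M * (Ioc (-R) R)ᶜ.indicator (ker a) (u - (v + R))) := by
        rw [integral_add ((ker_shift_int ha _).const_mul _) ((hti R _).const_mul _),
          integral_const_mul, integral_const_mul, hk0, htl]
      rw [e3]
      refine integral_mono (hFi _) (((ker_shift_int ha _).const_mul _).add
        ((hti R _).const_mul _)) fun u => ?_
      simp only []
      rw [← shift_ind a R (v + R) u]
      by_cases hu : u ∈ Ioc (v + R - R) (v + R + R)
      · rw [indicator_of_notMem (notMem_compl_iff.mpr hu), mul_zero, add_zero]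
        refine mul_le_mul_of_nonneg_right ?_ (ker_nonneg _ _)
        have e4 : v < u := by linarith [hu.1]
        have e5 : F u = f u := indicator_of_mem (show u ∈ Ioi U by show U < u; linarith) f
        rw [e5]
        exact hch v u (by linarith) e4.le (by linarith [hu.2])
      · rw [indicator_of_mem (mem_compl hu), ← add_mul]
        refine mul_le_mul_of_nonneg_right ?_ (ker_nonneg _ _)
        have e4 := (abs_le.mp (hFM u)).2
        have e5 := (abs_le.mp hFv2).1
        rw [hFv] at e5
        linarith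
    have := (abs_lt.mp e1).1
    linarith
  have hup : (f v - ε / 4) * I0 - 2 * M * tl a R < ε / 4 * I0 := by
    have e1 := hV (v - R) (by linarith)
    rw [dist_zero_right, Real.norm_eq_abs] at e1
    have e2 : (f v - ε / 4) * I0 - 2 * M * tl a R ≤ G (v - R) := by
      have e3 : (f v - ε / 4) * I0 - 2 * M * tl a R = ∫ u, ((f v - ε / 4) * ker a (u - (v - R)) -
          2 * M * (Ioc (-R) R)ᶜ.indicator (ker a) (u - (v - R))) := by
        rw [integral_sub ((ker_shift_int ha _).const_mul _) ((hti R _).const_mul _),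
          integral_const_mul, integral_const_mul, hk0, htl]
      rw [e3]
      refine integral_mono (((ker_shift_int ha _).const_mul _).sub
        ((hti R _).const_mul _)) (hFi _) fun u => ?_
      simp only []
      rw [← shift_ind a R (v - R) u]
      by_cases hu : u ∈ Ioc (v - R - R) (v - R + R)
      · rw [indicator_of_notMem (notMem_compl_iff.mpr hu), mul_zero, sub_zero]
        refine mul_le_mul_of_nonneg_right ?_ (ker_nonneg _ _)
        have e4 : v - 2 * R < u := by linarith [hu.1]
        have e5 : F u = f u := indicator_of_mem (show u ∈ Ioi U by show U < u; linarith) f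
        rw [e5]
        have := hch u v (by linarith) (by linarith [hu.2]) (by linarith)
        linarith
      · rw [indicator_of_mem (mem_compl hu), ← sub_mul]
        refine mul_le_mul_of_nonneg_right ?_ (ker_nonneg _ _)
        have e4 := (abs_le.mp (hFM u)).1
        have e5 := (abs_le.mp hFv2).2
        rw [hFv] at e5
        linarith
    have := (abs_lt.mp e1).2
    linarith
  rw [dist_zero_right, Real.norm_eq_abs, abs_lt]
  constructor
  · by_contra hc
    rw [not_lt] at hc
    nlinarith
  · by_contra hc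
    rw [not_lt] at hc
    nlinarith

end Pool.Agent.W136.FR
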