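import Pool.Agent.W136.FR.Reg
import Pool.Agent.W136.FR.Taub

/-! The local behaviour of the Laplace transform of the normalised product. -/

set_option autoImplicit false

namespace Pool.Agent.W136.FR

open MeasureTheory Filter Topology Set Classical
open Pool.Agent.W263.BSD

variable {S : Set ℕ} {A : ℕ → ℝ}

/-! ### the Laplace transform of the logarithm -/

theorem log_LInt {w : ℝ} (hw : 0 < w) : LInt Real.log w := by
  have h1 := (integrableOn_Ioi_comp_mul_left_iff
    (fun t : ℝ => Real.log t * Real.exp (-t)) 0 hw).mpr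
    (by rw [mul_zero]; exact integrable_log_exp)
  have h2 : IntegrableOn (fun u : ℝ => Real.log w * Real.exp (-(w * u))) (Ioi 0) := by
    have := (ex_LInt (c := 0) hw).const_mul (Real.log w)
    unfold LInt at this
    refine this.congr_fun (fun t _ => ?_) measurableSet_Ioi
    simp [ex]
  unfold LInt
  refine (h1.sub h2).congr_fun (fun u hu => ?_) measurableSet_Ioi
  have hu' : (0 : ℝ) < u := hu
  simp only [Pi.sub_apply]
  rw [Real.log_mul hw.ne' hu'.ne']
  ring

theorem log_lap {w : ℝ} (hw : 0 < w) :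
    w * lap Real.log w = -(Real.eulerMascheroniConstant + Real.log w) := by
  have h1 := integral_comp_mul_left_Ioi (fun t : ℝ => Real.log t * Real.exp (-t)) 0 hw
  rw [mul_zero, integral_log_exp] at h1
  have hexp : ∫ u in Ioi (0 : ℝ), Real.exp (-(w * u)) = 1 / w := by
    have := ex_lap (c := 0) hw
    rw [sub_zero] at this
    rw [← this]
    unfold lap
    refine setIntegral_congr_fun measurableSet_Ioi fun t _ => ?_
    simp [ex]
  have h2 : IntegrableOn (fun u : ℝ => Real.log w * Real.exp (-(w * u))) (Ioi 0) := by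
    have := (ex_LInt (c := 0) hw).const_mul (Real.log w)
    unfold LInt at this
    refine this.congr_fun (fun t _ => ?_) measurableSet_Ioi
    simp [ex]
  have h3 : ∫ u in Ioi (0 : ℝ), Real.log (w * u) * Real.exp (-(w * u)) =
      ∫ u in Ioi (0 : ℝ), (Real.log u * Real.exp (-(w * u)) + Real.log w * Real.exp (-(w * u))) := by
    refine setIntegral_congr_fun measurableSet_Ioi fun u hu => ?_
    have hu' : (0 : ℝ) < u := hu
    rw [Real.log_mul hw.ne' hu'.ne']
    ring
  have h4 := log_LInt hw
  unfold LInt at h4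
  rw [h3, integral_add h4 h2, integral_const_mul, hexp, smul_eq_mul] at h1
  unfold lap
  have h5 : ∫ u in Ioi (0 : ℝ), Real.log u * Real.exp (-(w * u)) =
      w⁻¹ * -Real.eulerMascheroniConstant - Real.log w * (1 / w) := by linarith
  rw [h5]
  field_simp
  ring

theorem log_lapC {z : ℂ} (hz : 0 < z.re) :
    z * lapC Real.log z = -((Real.eulerMascheroniConstant : ℂ) + Complex.log z) := by
  refine eq_of_real (f := fun z => z * lapC Real.log z)
    (g := fun z => -((Real.eulerMascheroniConstant : ℂ) + Complex.log z)) ?_ ?_ ?_ z hz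
  · intro z hz
    exact (differentiableAt_id.mul (lapC_differentiableAt Real.measurable_log
      (fun w hw => log_LInt hw) (show (0 : ℝ) < z.re from hz))).differentiableWithinAt
  · intro z hz
    have hz' : 0 < z.re := hz
    exact ((differentiableAt_const _).add
      (differentiableAt_id.clog (Or.inl hz'))).neg.differentiableWithinAt
  · intro w hw
    rw [lapC_ofReal, ← Complex.ofReal_mul, log_lap hw, ← Complex.ofReal_log hw.le]
    push_cast
    rfl

theorem one_lapC {z : ℂ} (hz : 0 < z.re) : z * lapC (fun _ => (1 : ℝ)) z = 1 := by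
  refine eq_of_real (f := fun z => z * lapC (fun _ => (1 : ℝ)) z) (g := fun _ => 1) ?_ ?_ ?_ z hz
  · intro z hz
    exact (differentiableAt_id.mul (lapC_differentiableAt measurable_const
      (fun w hw => one_LInt hw) (show (0 : ℝ) < z.re from hz))).differentiableWithinAt
  · exact differentiableOn_const _
  · intro w hw
    rw [lapC_ofReal, ← Complex.ofReal_mul, one_lap hw]
    rw [mul_one_div_cancel hw.ne']
    simp

/-! ### the logarithm of `Φ` near zero -/

theorem local_log {Φ lam : ℂ → ℂ} {r : ℕ} (hr : OrdZero Φ r)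
    (hlam : ∀ z : ℂ, 0 < z.re → DifferentiableAt ℂ lam z)
    (he : ∀ z : ℂ, 0 < z.re → Complex.exp (lam z) = Φ z) :
    ∃ (ρ : ℝ) (q : ℂ → ℂ), 0 < ρ ∧ DifferentiableOn ℂ q (Metric.ball 0 ρ) ∧
      ∀ z : ℂ, 0 < z.re → ‖z‖ < ρ → lam z = r * Complex.log z + q z := by
  obtain ⟨g, hg, hg0, hge⟩ := hr
  have h1 : ∀ᶠ z in 𝓝 (0 : ℂ), DifferentiableAt ℂ g z ∧ g z / g 0 ∈ Complex.slitPlane ∧
      Φ z = z ^ r * g z := by
    have h2 : ∀ᶠ z in 𝓝 (0 : ℂ), g z / g 0 ∈ Complex.slitPlane := by
      have h3 : ContinuousAt (fun z => g z / g 0) 0 := hg.continuousAt.div_const _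
      refine h3.eventually_mem ?_
      rw [div_self hg0]
      exact Complex.isOpen_slitPlane.mem_nhds Complex.one_mem_slitPlane
    filter_upwards [hg.eventually_analyticAt, h2, hge] with z e1 e2 e3
      using ⟨e1.differentiableAt, e2, e3⟩
  obtain ⟨ρ, hρ, h2⟩ := Metric.eventually_nhds_iff_ball.mp h1
  set U : Set ℂ := {z | 0 < z.re} ∩ Metric.ball 0 ρ with hU
  have hUo : IsOpen U := (isOpen_half 0).inter Metric.isOpen_ball
  have hUc : IsPreconnected U :=
    ((convex_halfSpace_re_gt 0).inter (convex_ball 0 ρ)).isPreconnected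
  set κ : ℂ → ℂ := fun z => lam z - r * Complex.log z - Complex.log (g z / g 0) with hκ
  have hκd : ∀ z ∈ U, DifferentiableAt ℂ κ z := by
    intro z hz
    have hz1 : 0 < z.re := hz.1
    obtain ⟨e1, e2, _⟩ := h2 z hz.2
    exact ((hlam z hz1).sub ((differentiableAt_id.clog (Or.inl hz1)).const_mul _)).sub
      ((e1.div_const _).clog e2)
  have hκe : ∀ z ∈ U, Complex.exp (κ z) = g 0 := by
    intro z hz
    have hz1 : 0 < z.re := hz.1
    have hz0 : z ≠ 0 := by
      intro h0
      rw [h0] at hz1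
      simp at hz1
    obtain ⟨e1, e2, e3⟩ := h2 z hz.2
    have e4 : g z / g 0 ≠ 0 := Complex.slitPlane_ne_zero e2
    have e5 : g z ≠ 0 := by
      intro h0
      rw [h0, zero_div] at e4
      exact e4 rfl
    rw [hκ]
    simp only []
    rw [Complex.exp_sub, Complex.exp_sub, he z hz1, Complex.exp_log e4,
      Complex.exp_nat_mul, Complex.exp_log hz0, e3]
    field_simp
  have hκ' : U.EqOn (deriv κ) 0 := by
    intro z hz
    have e1 : HasDerivAt (fun z => Complex.exp (κ z)) (Complex.exp (κ z) * deriv κ z) z :=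
      (hκd z hz).hasDerivAt.cexp
    have e2 : HasDerivAt (fun z => Complex.exp (κ z)) 0 z := by
      refine (hasDerivAt_const z (g 0)).congr_of_eventuallyEq ?_
      filter_upwards [hUo.mem_nhds hz] with y hy using hκe y hy
    have e3 := e1.unique e2
    rcases mul_eq_zero.mp e3 with h | h
    · exact absurd h (Complex.exp_ne_zero _)
    · exact h
  obtain ⟨c, hc⟩ := hUo.exists_is_const_of_deriv_eq_zero hUc
    (fun z hz => (hκd z hz).differentiableWithinAt) hκ'
  refine ⟨ρ, fun z => Complex.log (g z / g 0) + c, hρ, ?_, ?_⟩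
  · intro z hz
    obtain ⟨e1, e2, _⟩ := h2 z hz
    exact (((e1.div_const _).clog e2).add_const c).differentiableWithinAt
  · intro z hz hzρ
    have hzU : z ∈ U := ⟨hz, by rwa [mem_ball_zero_iff]⟩
    have := hc z hzU
    rw [hκ] at this
    simp only [] at this
    linear_combination this

/-! ### the normalised logarithm of the product -/

/-- `log P* - r log log - C0` -/
noncomputable def f0 (S : Set ℕ) (A : ℕ → ℝ) (r : ℕ) (C0 : ℝ) (u : ℝ) : ℝ :=
  aak S A 0 u - sc S A u - r * Real.log u - C0 * 1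

theorem f0_meas (r : ℕ) (C0 : ℝ) : Measurable (f0 S A r C0) :=
  (((aak_measurable 0).sub sc_meas).sub (Real.measurable_log.const_mul _)).sub measurable_const

theorem f0_LInt (E : EData S A) (hconv : ∀ w > 0, LInt (aak S A 0) w) (r : ℕ) (C0 : ℝ) :
    ∀ w > 0, LInt (f0 S A r C0) w := fun _ hw =>
  (((hconv _ hw).sub (E.sc_LInt hw)).sub ((log_LInt hw).const_mul _)).sub
    ((one_LInt hw).const_mul _)

theorem lapC_sub' {f g : ℝ → ℝ} (hfm : Measurable f) (hgm : Measurable g) {z : ℂ}
    (hf : LInt f z.re) (hg : LInt g z.re) :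
    lapC (fun u => f u - g u) z = lapC f z - lapC g z := by
  unfold lapC
  rw [← integral_sub (LInt.complex hfm hf) (LInt.complex hgm hg)]
  congr 1; funext u; push_cast; ring

theorem lapC_const_mul' {f : ℝ → ℝ} {z : ℂ} (c : ℝ) :
    lapC (fun u => c * f u) z = c * lapC f z := by
  unfold lapC
  rw [← integral_const_mul]
  congr 1; funext u; push_cast; ring

theorem f0_lapC (E : EData S A) (hconv : ∀ w > 0, LInt (aak S A 0) w) (r : ℕ) (C0 : ℝ) {z : ℂ}
    (hz : 0 < z.re) : z * lapC (f0 S A r C0) z =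
      z * lapC (aak S A 0) z - z * lapC (sc S A) z +
        r * ((Real.eulerMascheroniConstant : ℂ) + Complex.log z) - C0 := by
  have i1 := hconv _ hz
  have i2 := E.sc_LInt (S := S) (A := A) hz
  have i3 := (log_LInt hz).const_mul (r : ℝ)
  have i4 := (one_LInt hz).const_mul C0
  have m1 : Measurable (aak S A 0) := aak_measurable 0
  have m2 : Measurable (sc S A) := sc_meas
  have m3 : Measurable fun u : ℝ => (r : ℝ) * Real.log u := Real.measurable_log.const_mul _
  have m4 : Measurable fun _ : ℝ => C0 * (1 : ℝ) := measurable_const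
  have h1 : lapC (f0 S A r C0) z = lapC (aak S A 0) z - lapC (sc S A) z -
      ((r : ℝ) : ℂ) * lapC Real.log z - (C0 : ℂ) * lapC (fun _ => (1 : ℝ)) z := by
    unfold f0
    rw [lapC_sub' (f := fun u => aak S A 0 u - sc S A u - (r : ℝ) * Real.log u)
        (g := fun _ => C0 * 1) ((m1.sub m2).sub m3) m4 ((i1.sub i2).sub i3) i4,
      lapC_sub' (f := fun u => aak S A 0 u - sc S A u) (g := fun u => (r : ℝ) * Real.log u)
        (m1.sub m2) m3 (i1.sub i2) i3, lapC_sub' m1 m2 i1 i2, lapC_const_mul',
      lapC_const_mul']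
  have h2 := log_lapC hz
  have h3 := one_lapC hz
  rw [h1]
  push_cast
  linear_combination -(r : ℂ) * h2 - (C0 : ℂ) * h3

/-- the local hypotheses hold -/
theorem local_hyp (E : EData S A) {Φ : ℂ → ℂ} {c0 : ℝ} (D : Data 1 (aak S A 0) Φ (GG S A) c0)
    {r : ℕ} (hr : OrdZero Φ r) {c : ℝ} (hc0 : 0 < c)
    (hc : Tendsto (fun w : ℝ => ‖Φ w‖ / w ^ r) (𝓝[>] 0) (𝓝 c))
    (hconv : ∀ w > 0, LInt (aak S A 0) w) :
    ∃ (h : ℂ → ℂ) (ρ : ℝ), Hyp (f0 S A r (-Real.log c + r * Real.eulerMascheroniConstant)) h ρ := by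
  set C0 : ℝ := -Real.log c + r * Real.eulerMascheroniConstant with hC0
  set lam : ℂ → ℂ := fun z => GG S A z - z ^ 1 * lapC (aak S A 0) z with hlam
  have heq := D.eq_of_conv le_rfl hconv
  obtain ⟨ρ1, q, hρ1, hq, hlq⟩ := local_log (lam := lam) hr (fun z hz =>
    (E.GG_differentiable hz).sub ((differentiableAt_id.pow 1).mul
      (lapC_differentiableAt D.meas hconv hz))) (fun z hz => (heq z hz).symm)
  set ρ : ℝ := min ρ1 (1 / 50) with hρ
  have hρ0 : 0 < ρ := lt_min hρ1 (by norm_num)
  set Q : ℂ → ℂ := fun z => HH S A z - q z + ((r * Real.eulerMascheroniConstant - C0 : ℝ) : ℂ)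
    with hQ
  have hQd : DifferentiableOn ℂ Q (Metric.ball 0 ρ) := by
    have hsub1 : Metric.ball (0 : ℂ) ρ ⊆ {z : ℂ | -(1 / 50) < z.re} := by
      intro z hz
      rw [mem_ball_zero_iff] at hz
      have h1 := (abs_le.mp (Complex.abs_re_le_norm z)).1
      have h2 : ρ ≤ 1 / 50 := min_le_right _ _
      show -(1 / 50) < z.re
      linarith
    have hsub2 : Metric.ball (0 : ℂ) ρ ⊆ Metric.ball 0 ρ1 := Metric.ball_subset_ball (min_le_left _ _)
    exact (((HH_differentiable E).mono hsub1).sub (hq.mono hsub2)).add_const _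
  have hQe : ∀ z : ℂ, 0 < z.re → ‖z‖ < ρ → z * lapC (f0 S A r C0) z = Q z := by
    intro z hz hzρ
    have h1 := hlq z hz (lt_of_lt_of_le hzρ (min_le_left _ _))
    have h2 := GG_sub E z hz
    have h3 := f0_lapC E hconv r C0 hz
    rw [hlam] at h1
    simp only [pow_one] at h1
    rw [h3, hQ]
    simp only []
    push_cast
    linear_combination -h1 + h2
  have hQ0 : Q 0 = 0 := by
    have h1 : Tendsto (fun w : ℝ => Q w) (𝓝[>] 0) (𝓝 (Q 0)) := by
      have h2 : ContinuousAt Q 0 :=
        (hQd.differentiableAt (Metric.ball_mem_nhds 0 hρ0)).continuousAt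
      have h3 : Tendsto (fun w : ℝ => (w : ℂ)) (𝓝[>] 0) (𝓝 0) := by
        have := Complex.continuous_ofReal.tendsto 0
        rw [Complex.ofReal_zero] at this
        exact tendsto_nhdsWithin_of_tendsto_nhds this
      exact h2.tendsto.comp h3
    have h4 := E.abel_limit D hconv hc0 hc
    have h5 := (ell_lap_limit.const_mul (r : ℝ))
    have h6 := (h4.add h5).add_const (r * Real.eulerMascheroniConstant - C0)
    have h7 : -Real.log c + r * Real.eulerMascheroniConstant + r * -Real.eulerMascheroniConstant +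
        (r * Real.eulerMascheroniConstant - C0) = 0 := by rw [hC0]; ring
    rw [h7] at h6
    have h8 := (Complex.continuous_ofReal.tendsto 0).comp h6
    rw [Complex.ofReal_zero] at h8
    refine tendsto_nhds_unique h1 (h8.congr' ?_)
    filter_upwards [self_mem_nhdsWithin, Ioo_mem_nhdsGT hρ0] with w hw1 hw2
    have hw : (0 : ℝ) < w := hw1
    have h9 := hQe w (by simpa using hw) (by
      rw [Complex.norm_real, Real.norm_of_nonneg hw.le]; exact hw2.2)
    simp only [Function.comp_apply]
    rw [← h9, lapC_ofReal, ← Complex.ofReal_mul]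
    congr 1
    have i1 := hconv _ hw
    have i2 := E.sc_LInt (S := S) (A := A) hw
    have e1 : lap (f0 S A r C0) w = lap (aak S A 0) w - lap (sc S A) w - r * lap Real.log w -
        C0 * lap (fun _ => (1 : ℝ)) w := by
      unfold f0
      rw [lap_sub ((i1.sub i2).sub ((log_LInt hw).const_mul _)) ((one_LInt hw).const_mul _),
        lap_sub (i1.sub i2) ((log_LInt hw).const_mul _), lap_sub i1 i2, lap_const_mul,
        lap_const_mul]
    have e2 : lap (ff S A r) w = lap (aak S A 0) w - lap (sc S A) w - r * lap ell w := by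
      unfold ff
      rw [lap_sub (i1.sub i2) ((ell_LInt hw).const_mul _), lap_sub i1 i2, lap_const_mul]
    have e3 := log_lap hw
    have e4 : w * lap (fun _ => (1 : ℝ)) w = 1 := by
      rw [one_lap hw, mul_one_div_cancel hw.ne']
    rw [e1, e2]
    linear_combination (r : ℝ) * e3 + C0 * e4
  refine ⟨dslope Q 0, ρ, f0_meas r C0, f0_LInt E hconv r C0, hρ0, ?_, ?_⟩
  · exact ((Complex.differentiableOn_dslope (Metric.ball_mem_nhds 0 hρ0)).mpr hQd).continuousOn
  · intro z hz hzρ
    have hz0 : z ≠ 0 := by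
      intro h0
      rw [h0] at hz
      simp at hz
    rw [dslope_of_ne _ hz0, slope_def_field, hQ0, sub_zero, sub_zero, ← hQe z hz hzρ,
      mul_div_cancel_left₀ _ hz0]

end Pool.Agent.W136.FR
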