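import Pool.Agent.W136.FR.Local

/-! Dyadic one-sided conditions and the asymptotic formula. -/

set_option autoImplicit false

namespace Pool.Agent.W136.FR

open MeasureTheory Filter Topology Set Classical
open Pool.Agent.W263.BSD

variable {S : Set ℕ} {A : ℕ → ℝ}

theorem lin_exp (K : ℝ) {ε : ℝ} (hε : 0 < ε) : ∀ᶠ u in atTop, K * (1 + u) ≤ Real.exp (ε * u) := by
  have h1 := (isLittleO_pow_exp_pos_mul_atTop 1 hε).bound
    (show (0 : ℝ) < 1 / (2 * |K| + 1) by positivity)
  filter_upwards [h1, eventually_ge_atTop 1] with u h1 h2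
  rw [pow_one, Real.norm_of_nonneg (by linarith), Real.norm_of_nonneg (Real.exp_pos _).le,
    one_div, inv_mul_eq_div, le_div_iff₀ (by positivity)] at h1
  have h3 : K * (1 + u) ≤ |K| * (2 * u) :=
    mul_le_mul (le_abs_self K) (by linarith) (by linarith) (abs_nonneg _)
  linarith

theorem slow_f0 (E : EData S A) {b : ℝ} (hb : 0 < b) (r : ℕ) (C0 : ℝ)
    (h : Slow (aak S A 0) b) : Slow (f0 S A r C0) b := by
  intro ε hε
  obtain ⟨u1, h1⟩ := h (ε / 2) (half_pos hε)
  obtain ⟨δ, hδ, u2, h2⟩ := E.sc_slow (half_pos hε)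
  refine ⟨max (max u1 u2) (max 1 (b / δ)), fun u v h3 h4 h5 => ?_⟩
  have hu1 : u1 ≤ u := ((le_max_left _ _).trans (le_max_left _ _)).trans h3
  have hu2 : u2 ≤ u := ((le_max_right _ _).trans (le_max_left _ _)).trans h3
  have hu3 : 1 ≤ u := ((le_max_left _ _).trans (le_max_right _ _)).trans h3
  have hu4 : b / δ ≤ u := ((le_max_right _ _).trans (le_max_right _ _)).trans h3
  have hu5 : b ≤ δ * u := by rw [div_le_iff₀ hδ] at hu4; linarith
  have e1 := h1 u v hu1 h4 h5
  have e2 := (abs_le.mp (h2 u v hu2 h4 (by linarith))).1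
  have e3 : (r : ℝ) * Real.log u ≤ r * Real.log v :=
    mul_le_mul_of_nonneg_left (Real.log_le_log (by linarith) h4) (by positivity)
  unfold f0
  linarith

theorem slow_f0_neg (E : EData S A) {b : ℝ} (hb : 0 < b) (r : ℕ) (C0 : ℝ)
    (h : Slow (fun u => -aak S A 0 u) b) : Slow (fun u => -f0 S A r C0 u) b := by
  intro ε hε
  obtain ⟨u1, h1⟩ := h (ε / 3) (by positivity)
  obtain ⟨δ, hδ, u2, h2⟩ := E.sc_slow (show 0 < ε / 3 by positivity)
  refine ⟨max (max u1 u2) (max 1 (max (b / δ) (3 * r * b / ε))), fun u v h3 h4 h5 => ?_⟩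
  have hu1 : u1 ≤ u := ((le_max_left _ _).trans (le_max_left _ _)).trans h3
  have hu2 : u2 ≤ u := ((le_max_right _ _).trans (le_max_left _ _)).trans h3
  have hu3 : 1 ≤ u := ((le_max_left _ _).trans (le_max_right _ _)).trans h3
  have hm := (le_max_right (1 : ℝ) (max (b / δ) (3 * r * b / ε))).trans
    ((le_max_right (max u1 u2) _).trans h3)
  have hu4 : b / δ ≤ u := (le_max_left _ _).trans hm
  have hu6 : 3 * r * b / ε ≤ u := (le_max_right _ _).trans hm
  have hu5 : b ≤ δ * u := by rw [div_le_iff₀ hδ] at hu4; linarith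
  have hu7 : 3 * r * b ≤ u * ε := by rwa [div_le_iff₀ hε] at hu6
  have hu0 : 0 < u := by linarith
  have e1 : -aak S A 0 v ≤ -aak S A 0 u + ε / 3 := h1 u v hu1 h4 h5
  have e2 := (abs_le.mp (h2 u v hu2 h4 (by linarith))).2
  have e3 : Real.log v - Real.log u ≤ b / u := by
    rw [← Real.log_div (by linarith) hu0.ne']
    have e4 := Real.log_le_sub_one_of_pos (show 0 < v / u by
      have : 0 < v := by linarith
      positivity)
    have e5 : v / u - 1 ≤ b / u := by
      rw [div_sub_one hu0.ne']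
      exact div_le_div_of_nonneg_right (by linarith) hu0.le
    linarith
  have e4 : (r : ℝ) * (Real.log v - Real.log u) ≤ r * (b / u) :=
    mul_le_mul_of_nonneg_left e3 (by positivity)
  have e5 : (r : ℝ) * (b / u) ≤ ε / 3 := by
    rw [mul_div_assoc', div_le_div_iff₀ hu0 (by norm_num)]
    linarith
  show -f0 S A r C0 v ≤ -f0 S A r C0 u + ε
  unfold f0
  linarith

theorem Hyp.neg {f : ℝ → ℝ} {h : ℂ → ℂ} {ρ : ℝ} (H : Hyp f h ρ) :
    Hyp (fun u => -f u) (fun z => -h z) ρ where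
  meas := H.meas.neg
  int := fun w hw => (H.int w hw).neg
  pos := H.pos
  cont := H.cont.neg
  eq := fun z hz hzρ => by
    rw [← H.eq z hz hzρ]
    unfold lapC
    rw [← integral_neg]
    congr 1; funext u; push_cast; ring

theorem ff_of_f0 {r : ℕ} {C0 : ℝ} (h : Tendsto (f0 S A r C0) atTop (𝓝 0)) :
    Tendsto (ff S A r) atTop (𝓝 C0) := by
  have h1 := (h.add_const C0).sub (ell_sub_log.const_mul (r : ℝ))
  rw [mul_zero, sub_zero, zero_add] at h1
  refine h1.congr fun u => ?_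
  unfold f0 ff
  ring

/-- **Upper condition.** -/
theorem upper_lim (E : EData S A) {Φ : ℂ → ℂ} {c0 : ℝ} (D : Data 1 (aak S A 0) Φ (GG S A) c0)
    {r : ℕ} (hr : OrdZero Φ r) {c : ℝ} (hc0 : 0 < c)
    (hc : Tendsto (fun w : ℝ => ‖Φ w‖ / w ^ r) (𝓝[>] 0) (𝓝 c)) {b : ℝ} (hb : 0 < b)
    (h : Slow (aak S A 0) b) :
    Tendsto (ff S A r) atTop (𝓝 (-Real.log c + r * Real.eulerMascheroniConstant)) := by
  have hconv : ∀ w > 0, LInt (aak S A 0) w := by
    obtain ⟨K, u0, hK, hu0, hle⟩ := h.upper hb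
    refine D.conv_of_upper (E.aak_abs 0) fun ε hε => ?_
    filter_upwards [lin_exp K hε, eventually_ge_atTop u0] with u h1 h2
    exact (hle u h2).trans h1
  obtain ⟨hh, ρ, H⟩ := local_hyp E D hr hc0 hc hconv
  exact ff_of_f0 (fatou_riesz H hb (slow_f0 E hb r _ h))

/-- **Lower condition.** -/
theorem lower_lim (E : EData S A) {Φ : ℂ → ℂ} {c0 : ℝ} (D : Data 1 (aak S A 0) Φ (GG S A) c0)
    {r : ℕ} (hr : OrdZero Φ r) {c : ℝ} (hc0 : 0 < c) (hne : ∀ w : ℝ, 0 < w → Φ w ≠ 0)
    (hc : Tendsto (fun w : ℝ => ‖Φ w‖ / w ^ r) (𝓝[>] 0) (𝓝 c)) {b : ℝ} (hb : 0 < b)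
    (h : Slow (fun u => -aak S A 0 u) b) :
    Tendsto (ff S A r) atTop (𝓝 (-Real.log c + r * Real.eulerMascheroniConstant)) := by
  have hconv : ∀ w > 0, LInt (aak S A 0) w := by
    obtain ⟨K, u0, hK, hu0, hle⟩ := h.upper hb
    refine D.conv_of_lower (E.aak_abs 0) hne fun ε hε => ?_
    filter_upwards [lin_exp K hε, eventually_ge_atTop u0] with u h1 h2
    have := hle u h2
    linarith
  obtain ⟨hh, ρ, H⟩ := local_hyp E D hr hc0 hc hconv
  have h1 := (fatou_riesz H.neg hb (slow_f0_neg E hb r _ h)).neg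
  rw [neg_zero] at h1
  exact ff_of_f0 (h1.congr fun u => by simp)

/-! ### elliptic curves -/

variable {a b : ℤ}

/-- no increase over dyadic intervals, in the limit -/
def DyadicUpper (a b : ℤ) : Prop :=
  ∀ ε : ℝ, 0 < ε → ∀ᶠ x : ℝ in atTop, ∀ y, x ≤ y → y ≤ 2 * x →
    bsdProduct a b y ≤ (1 + ε) * bsdProduct a b x

/-- no decrease over dyadic intervals, in the limit -/
def DyadicLower (a b : ℤ) : Prop :=
  ∀ ε : ℝ, 0 < ε → ∀ᶠ x : ℝ in atTop, ∀ y, x ≤ y → y ≤ 2 * x →
    bsdProduct a b x ≤ (1 + ε) * bsdProduct a b y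

theorem up_transfer (h : DyadicUpper a b) : Slow (aak (SS a b) (Ap a b) 0) (Real.log 2) := by
  intro ε hε
  obtain ⟨X, hX⟩ := eventually_atTop.mp (h ε hε)
  refine ⟨max 4 (Real.log (max X 1)), fun u v h2 h3 h4 => ?_⟩
  have hu4 : 4 ≤ u := (le_max_left _ _).trans h2
  have h5 : X ≤ Real.exp u := by
    have e1 : Real.log (max X 1) ≤ u := (le_max_right _ _).trans h2
    have e2 : 0 < max X 1 := lt_of_lt_of_le one_pos (le_max_right _ _)
    rw [Real.log_le_iff_le_exp e2] at e1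
    exact (le_max_left _ _).trans e1
  have h6 := hX (Real.exp u) h5 (Real.exp v) (Real.exp_le_exp.mpr h3) (by
    have : Real.exp v ≤ Real.exp (u + Real.log 2) := Real.exp_le_exp.mpr h4
    rw [Real.exp_add, Real.exp_log (by norm_num)] at this
    linarith)
  have h7 := Real.log_le_log (bsdProduct_pos _) h6
  rw [Real.log_mul (by positivity) (bsdProduct_pos _).ne', log_bsd_eq hu4,
    log_bsd_eq (hu4.trans h3)] at h7
  have h8 := Real.log_le_sub_one_of_pos (show 0 < 1 + ε by linarith)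
  linarith

theorem low_transfer (h : DyadicLower a b) :
    Slow (fun u => -aak (SS a b) (Ap a b) 0 u) (Real.log 2) := by
  intro ε hε
  obtain ⟨X, hX⟩ := eventually_atTop.mp (h ε hε)
  refine ⟨max 4 (Real.log (max X 1)), fun u v h2 h3 h4 => ?_⟩
  have hu4 : 4 ≤ u := (le_max_left _ _).trans h2
  have h5 : X ≤ Real.exp u := by
    have e1 : Real.log (max X 1) ≤ u := (le_max_right _ _).trans h2
    have e2 : 0 < max X 1 := lt_of_lt_of_le one_pos (le_max_right _ _)
    rw [Real.log_le_iff_le_exp e2] at e1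
    exact (le_max_left _ _).trans e1
  have h6 := hX (Real.exp u) h5 (Real.exp v) (Real.exp_le_exp.mpr h3) (by
    have : Real.exp v ≤ Real.exp (u + Real.log 2) := Real.exp_le_exp.mpr h4
    rw [Real.exp_add, Real.exp_log (by norm_num)] at this
    linarith)
  have h7 := Real.log_le_log (bsdProduct_pos _) h6
  rw [Real.log_mul (by positivity) (bsdProduct_pos _).ne', log_bsd_eq hu4,
    log_bsd_eq (hu4.trans h3)] at h7
  have h8 := Real.log_le_sub_one_of_pos (show 0 < 1 + ε by linarith)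
  show -aak (SS a b) (Ap a b) 0 v ≤ -aak (SS a b) (Ap a b) 0 u + ε
  linarith

theorem two_mul_le {δ : ℝ} (hδ : 0 < δ) : ∀ᶠ x : ℝ in atTop, 2 * x ≤ x ^ (1 + δ) := by
  have h1 := tendsto_rpow_atTop hδ
  filter_upwards [h1.eventually (eventually_ge_atTop 2), eventually_gt_atTop 0] with x h2 h3
  rw [Real.rpow_add h3, Real.rpow_one]
  nlinarith

/-- **Dyadic one-sided conditions and the leading coefficient.** -/
theorem dyadic_tfae {F : ℂ → ℂ} (hF : IsLSeries a b F) {r : ℕ} (hr : analyticOrderAt F 1 = r) :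
    List.TFAE [
      Tendsto (fun x : ℝ => bsdStar a b x / (Real.log x) ^ r) atTop
        (𝓝 (Real.exp (r * Real.eulerMascheroniConstant) / leadAbs F r)),
      ∃ C : ℝ, 0 < C ∧ Tendsto (fun x : ℝ => bsdStar a b x / (Real.log x) ^ r) atTop (𝓝 C),
      DyadicUpper a b,
      (∀ s : ℝ, 1 < s → F s ≠ 0) ∧ DyadicLower a b] := by
  obtain ⟨hpos, _⟩ := lead_limit hF.1 hr
  have hl2 : 0 < Real.log 2 := Real.log_pos (by norm_num)
  tfae_have 1 → 2 := fun h => ⟨_, by positivity, h⟩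
  tfae_have 2 → 3 := by
    rintro ⟨C, hC, h⟩ ε hε
    obtain ⟨δ, hδ, h1⟩ := slow_of_tendsto hC h hε
    filter_upwards [h1, two_mul_le hδ] with x h2 h3 y h4 h5
    exact (h2 y h4 (h5.trans h3)).1
  tfae_have 2 → 4 := by
    rintro ⟨C, hC, h⟩
    refine ⟨?_, fun ε hε => ?_⟩
    · obtain ⟨K, hK⟩ := order_of_tendsto hC h
      exact fun s hs => no_zeros_of_order hF hK (by simpa using hs)
    · obtain ⟨δ, hδ, h1⟩ := slow_of_tendsto hC h hε
      filter_upwards [h1, two_mul_le hδ] with x h2 h3 y h4 h5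
      exact (h2 y h4 (h5.trans h3)).2
  tfae_have 3 → 1 := fun h => star_tendsto_iff hpos
    (upper_lim (eData a b) (data 0 hF) (ordZero hF hr) (c_pos hpos) (phi_limit hF hr) hl2
      (up_transfer h))
  tfae_have 4 → 1 := fun h => star_tendsto_iff hpos
    (lower_lim (eData a b) (data 0 hF) (ordZero hF hr) (c_pos hpos) (phi_ne h.1)
      (phi_limit hF hr) hl2 (low_transfer h.2))
  tfae_finish

end Pool.Agent.W136.FR
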