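import Pool.Agent.W136.FR.Main

/-! The original conjecture and the dyadic conditions. -/

set_option autoImplicit false

namespace Pool.Agent.W136.FR

open MeasureTheory Filter Topology Set Classical
open Pool.Agent.W263.BSD

variable {a b : ℤ}

/-- the second order sum `∑_{√x < p ≤ x} (a_p² - 2p)/(2p²)` over good primes, `a_p = p - N_p` -/
noncomputable def corr (a b : ℤ) (x : ℝ) : ℝ :=
  ∑ p ∈ (Finset.range (⌊x⌋₊ + 1)).filter (fun p => GoodPrime a b p ∧ √x < p),
    (((p : ℝ) - pointCount a b p) ^ 2 - 2 * p) / (2 * (p : ℝ) ^ 2)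

theorem star_eq (x : ℝ) : bsdStar a b x = bsdProduct a b x * Real.exp (corr a b x) := rfl

theorem corr_bounded (a b : ℤ) : ∃ M : ℝ, ∀ᶠ x : ℝ in atTop, |corr a b x| ≤ M := by
  obtain ⟨M, hM⟩ := (eData a b).sc_bounded
  refine ⟨M, ?_⟩
  filter_upwards [eventually_ge_atTop (Real.exp 8)] with x hx
  have hx0 : 0 < x := lt_of_lt_of_le (Real.exp_pos _) hx
  have hl : 8 ≤ Real.log x := by rwa [Real.le_log_iff_exp_le hx0]
  have h3 := corr_eq (a := a) (b := b) hl
  rw [Real.exp_log hx0] at h3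
  unfold corr
  rw [h3, abs_neg]
  exact hM _ (by linarith)

theorem log_pow_tendsto {n : ℕ} (hn : n ≠ 0) :
    Tendsto (fun x : ℝ => (Real.log x) ^ n) atTop atTop :=
  (tendsto_pow_atTop hn).comp Real.tendsto_log_atTop

/-- the exponent is determined by bounds along a sequence -/
theorem order_unique {r R : ℕ} {T c C : ℝ} (hT : 0 < T)
    (h : Tendsto (fun x : ℝ => bsdStar a b x / (Real.log x) ^ r) atTop (𝓝 T)) (hc : 0 < c)
    (hf : ∃ᶠ x : ℝ in atTop, c * (Real.log x) ^ R ≤ bsdProduct a b x ∧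
      bsdProduct a b x ≤ C * (Real.log x) ^ R) : r = R := by
  obtain ⟨M, hM⟩ := corr_bounded a b
  have hlog : ∀ᶠ x : ℝ in atTop, 1 ≤ Real.log x :=
    Real.tendsto_log_atTop.eventually (eventually_ge_atTop 1)
  rcases lt_trichotomy r R with hlt | heq | hgt
  · exfalso
    have hn : R - r ≠ 0 := by omega
    obtain ⟨x, ⟨h1, _⟩, h2, h3, h4, h5⟩ := (hf.and_eventually (hM.and (hlog.and
      ((h.eventually (gt_mem_nhds (show T < T + 1 by linarith))).and
        ((log_pow_tendsto hn).eventually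
          (eventually_gt_atTop ((T + 1) / (c * Real.exp (-M)))))))) ).exists
    have hl0 : 0 < Real.log x := by linarith
    rw [div_lt_iff₀ (pow_pos hl0 r), star_eq] at h4
    have e1 : Real.exp (-M) ≤ Real.exp (corr a b x) := Real.exp_le_exp.mpr (abs_le.mp h2).1
    have e2 : c * (Real.log x) ^ R * Real.exp (-M) ≤ bsdProduct a b x * Real.exp (corr a b x) :=
      mul_le_mul h1 e1 (Real.exp_pos _).le (bsdProduct_pos x).le
    have e3 : (Real.log x) ^ R = (Real.log x) ^ (R - r) * (Real.log x) ^ r := by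
      rw [← pow_add]; congr 1; omega
    have hce : 0 < c * Real.exp (-M) := by positivity
    rw [div_lt_iff₀ hce] at h5
    rw [e3] at e2
    have e4 : (Real.log x) ^ (R - r) * (c * Real.exp (-M)) * (Real.log x) ^ r <
        (T + 1) * (Real.log x) ^ r := by
      refine lt_of_le_of_lt (le_of_eq (by ring)) (lt_of_le_of_lt e2 h4)
    have e5 := lt_of_mul_lt_mul_right e4 (pow_pos hl0 r).le
    linarith
  · exact heq
  · exfalso
    have hn : r - R ≠ 0 := by omega
    obtain ⟨x, ⟨_, h1⟩, h2, h3, h4, h5⟩ := (hf.and_eventually (hM.and (hlog.and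
      ((h.eventually (lt_mem_nhds (show T / 2 < T by linarith))).and
        ((log_pow_tendsto hn).eventually
          (eventually_gt_atTop (C * Real.exp M / (T / 2)))))))).exists
    have hl0 : 0 < Real.log x := by linarith
    rw [lt_div_iff₀ (pow_pos hl0 r), star_eq] at h4
    have e1 : Real.exp (corr a b x) ≤ Real.exp M := Real.exp_le_exp.mpr (abs_le.mp h2).2
    have e2 : bsdProduct a b x * Real.exp (corr a b x) ≤ C * (Real.log x) ^ R * Real.exp M :=
      mul_le_mul h1 e1 (Real.exp_pos _).le ((bsdProduct_pos x).le.trans h1)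
    have e3 : (Real.log x) ^ r = (Real.log x) ^ (r - R) * (Real.log x) ^ R := by
      rw [← pow_add]; congr 1; omega
    rw [div_lt_iff₀ (by positivity)] at h5
    rw [e3] at h4
    have e4 : (Real.log x) ^ (r - R) * (T / 2) * (Real.log x) ^ R <
        (C * Real.exp M) * (Real.log x) ^ R := by
      refine lt_of_le_of_lt (le_of_eq (by ring)) (lt_of_lt_of_le h4 (e2.trans (le_of_eq (by ring))))
    have e5 := lt_of_mul_lt_mul_right e4 (pow_pos hl0 R).le
    linarith

/-- an asymptotic formula for the product itself gives the dyadic conditions -/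
theorem dyadic_of_tendsto {R : ℕ} {A : ℝ} (hA : 0 < A)
    (h : Tendsto (fun x : ℝ => bsdProduct a b x / (Real.log x) ^ R) atTop (𝓝 A)) :
    DyadicUpper a b ∧ DyadicLower a b := by
  have key : ∀ ε : ℝ, 0 < ε → ∀ᶠ x : ℝ in atTop, ∀ y, x ≤ y → y ≤ 2 * x →
      bsdProduct a b y ≤ (1 + ε) * bsdProduct a b x ∧
      bsdProduct a b x ≤ (1 + ε) * bsdProduct a b y := by
    intro ε hε
    obtain ⟨η, ⟨h1, h2⟩, h3⟩ : ∃ η : ℝ, ((1 + η) * (1 + η) ^ R < (1 + ε) * (1 - η) ∧ η < 1) ∧ 0 < η := by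
      have hc1 : Tendsto (fun η : ℝ => (1 + η) * (1 + η) ^ R) (𝓝[>] 0) (𝓝 1) := by
        have hc : Continuous fun η : ℝ => (1 + η) * (1 + η) ^ R := by fun_prop
        have := hc.tendsto 0
        simp only [add_zero, one_pow, mul_one] at this
        exact tendsto_nhdsWithin_of_tendsto_nhds this
      have hc2 : Tendsto (fun η : ℝ => (1 + ε) * (1 - η)) (𝓝[>] 0) (𝓝 (1 + ε)) := by
        have hc : Continuous fun η : ℝ => (1 + ε) * (1 - η) := by fun_prop
        have := hc.tendsto 0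
        simp only [sub_zero, mul_one] at this
        exact tendsto_nhdsWithin_of_tendsto_nhds this
      have e1 := hc1.eventually_lt hc2 (by linarith)
      have e2 : ∀ᶠ η : ℝ in 𝓝[>] 0, η < 1 :=
        mem_nhdsWithin_of_mem_nhds (Iio_mem_nhds one_pos)
      exact ((e1.and e2).and self_mem_nhdsWithin).exists
    have hlo := h.eventually (lt_mem_nhds (show A * (1 - η) < A by nlinarith))
    have hup := h.eventually (gt_mem_nhds (show A < A * (1 + η) by nlinarith))
    obtain ⟨X, hX⟩ := eventually_atTop.mp (hlo.and hup)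
    have hlog : ∀ᶠ x : ℝ in atTop, max 1 (Real.log 2 / η) ≤ Real.log x :=
      Real.tendsto_log_atTop.eventually (eventually_ge_atTop _)
    filter_upwards [eventually_ge_atTop X, hlog, eventually_gt_atTop 0] with x hx hl hx0 y hxy hy
    have hl1 : 1 ≤ Real.log x := (le_max_left _ _).trans hl
    have hl2 : Real.log 2 / η ≤ Real.log x := (le_max_right _ _).trans hl
    rw [div_le_iff₀ h3] at hl2
    have hlx : 0 < Real.log x := by linarith
    have hly1 : Real.log x ≤ Real.log y := Real.log_le_log hx0 hxy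
    have hly : 0 < Real.log y := by linarith
    have hly2 : Real.log y ≤ (1 + η) * Real.log x := by
      have e1 := Real.log_le_log (by linarith : 0 < y) hy
      rw [Real.log_mul (by norm_num) hx0.ne'] at e1
      linarith
    obtain ⟨a1, a2⟩ := hX x hx
    obtain ⟨b1, b2⟩ := hX y (hx.trans hxy)
    rw [lt_div_iff₀ (pow_pos hlx R)] at a1
    rw [div_lt_iff₀ (pow_pos hlx R)] at a2
    rw [lt_div_iff₀ (pow_pos hly R)] at b1
    rw [div_lt_iff₀ (pow_pos hly R)] at b2
    have hp1 : Real.log y ^ R ≤ (1 + η) ^ R * Real.log x ^ R := by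
      rw [← mul_pow]
      exact pow_le_pow_left₀ hly.le hly2 R
    have hp2 : Real.log x ^ R ≤ Real.log y ^ R := pow_le_pow_left₀ hlx.le hly1 R
    have hLx := pow_pos hlx R
    have hLy := pow_pos hly R
    have h1R : (1 : ℝ) ≤ (1 + η) ^ R := one_le_pow₀ (by linarith)
    constructor
    · calc bsdProduct a b y ≤ A * (1 + η) * Real.log y ^ R := b2.le
        _ ≤ A * (1 + η) * ((1 + η) ^ R * Real.log x ^ R) := by gcongr
        _ = A * ((1 + η) * (1 + η) ^ R) * Real.log x ^ R := by ring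
        _ ≤ A * ((1 + ε) * (1 - η)) * Real.log x ^ R := by gcongr
        _ = (1 + ε) * (A * (1 - η) * Real.log x ^ R) := by ring
        _ ≤ (1 + ε) * bsdProduct a b x := by gcongr
    · calc bsdProduct a b x ≤ A * (1 + η) * Real.log x ^ R := a2.le
        _ ≤ A * (1 + η) * Real.log y ^ R := by gcongr
        _ ≤ A * ((1 + η) * (1 + η) ^ R) * Real.log y ^ R := by
            refine mul_le_mul_of_nonneg_right (mul_le_mul_of_nonneg_left ?_ hA.le) hLy.le
            exact le_mul_of_one_le_right (by linarith) h1R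
        _ ≤ A * ((1 + ε) * (1 - η)) * Real.log y ^ R := by gcongr
        _ = (1 + ε) * (A * (1 - η) * Real.log y ^ R) := by ring
        _ ≤ (1 + ε) * bsdProduct a b y := by gcongr
  exact ⟨fun ε hε => (key ε hε).mono fun x hx y e1 e2 => (hx y e1 e2).1,
    fun ε hε => (key ε hε).mono fun x hx y e1 e2 => (hx y e1 e2).2⟩

/-- bounds from an asymptotic formula -/
theorem bounds_of_tendsto {R : ℕ} {A : ℝ} (hA : 0 < A)
    (h : Tendsto (fun x : ℝ => bsdProduct a b x / (Real.log x) ^ R) atTop (𝓝 A)) :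
    ∀ᶠ x : ℝ in atTop, A / 2 * (Real.log x) ^ R ≤ bsdProduct a b x ∧
      bsdProduct a b x ≤ 2 * A * (Real.log x) ^ R := by
  have hlog : ∀ᶠ x : ℝ in atTop, 1 ≤ Real.log x :=
    Real.tendsto_log_atTop.eventually (eventually_ge_atTop 1)
  filter_upwards [h.eventually (lt_mem_nhds (show A / 2 < A by linarith)),
    h.eventually (gt_mem_nhds (show A < 2 * A by linarith)), hlog] with x h1 h2 h3
  have hl0 : 0 < Real.log x := by linarith
  rw [lt_div_iff₀ (pow_pos hl0 R)] at h1
  rw [div_lt_iff₀ (pow_pos hl0 R)] at h2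
  exact ⟨h1.le, h2.le⟩

/-- **The asymptotic formula with a given exponent.** -/
theorem orig_iff {F : ℂ → ℂ} (hF : IsLSeries a b F) (R : ℕ) :
    (∃ A : ℝ, 0 < A ∧ Tendsto (fun x : ℝ => bsdProduct a b x / (Real.log x) ^ R) atTop (𝓝 A)) ↔
      analyticOrderAt F 1 = R ∧ DyadicUpper a b ∧ ∃ c : ℝ, Tendsto (corr a b) atTop (𝓝 c) := by
  obtain ⟨r, hr⟩ := order_finite hF
  obtain ⟨hpos, _⟩ := lead_limit hF.1 hr
  have ht := dyadic_tfae hF hr
  constructor
  · rintro ⟨A, hA, h⟩
    obtain ⟨h1, h2⟩ := dyadic_of_tendsto hA h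
    have h3 := (ht.out 2 0).mp h1
    have h4 := order_unique (by positivity) h3 (by positivity)
      (bounds_of_tendsto hA h).frequently
    subst h4
    refine ⟨hr, h1, Real.log (Real.exp (r * Real.eulerMascheroniConstant) / leadAbs F r / A), ?_⟩
    have h5 := (h3.div h hA.ne').log (by positivity)
    refine h5.congr' ?_
    filter_upwards [Real.tendsto_log_atTop.eventually (eventually_ge_atTop 1)] with x hx
    have hl0 : 0 < Real.log x := by linarith
    have hp := bsdProduct_pos (a := a) (b := b) x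
    have : bsdStar a b x / Real.log x ^ r / (bsdProduct a b x / Real.log x ^ r) =
        Real.exp (corr a b x) := by
      rw [star_eq]
      field_simp
    simp only [Pi.div_apply]
    rw [this, Real.log_exp]
  · rintro ⟨h1, h2, c, h3⟩
    have hrR : r = R := by
      rw [hr] at h1
      exact_mod_cast h1
    subst hrR
    have h4 := (ht.out 2 0).mp h2
    refine ⟨Real.exp (r * Real.eulerMascheroniConstant) / leadAbs F r * Real.exp (-c),
      by positivity, ?_⟩
    refine (h4.mul h3.neg.rexp).congr fun x => ?_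
    rw [star_eq, mul_div_right_comm, mul_assoc, ← Real.exp_add, add_neg_cancel, Real.exp_zero,
      mul_one]

/-- **The equivalences,** with the theorem of Rankin and Selberg as hypothesis. -/
theorem orig_tfae (hΔ : 4 * a ^ 3 + 27 * b ^ 2 ≠ 0) {F : ℂ → ℂ} (hF : IsLSeries a b F) (R : ℕ)
    (hrs : Tendsto (rsSum a b) atTop (𝓝 0)) :
    List.TFAE [
      ∃ A : ℝ, 0 < A ∧ Tendsto (fun x : ℝ => bsdProduct a b x / (Real.log x) ^ R) atTop (𝓝 A),
      iteratedDeriv R F 1 ≠ 0 ∧ Tendsto (fun x : ℝ => bsdProduct a b x / (Real.log x) ^ R) atTop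
        (𝓝 (√2 * (Real.exp (R * Real.eulerMascheroniConstant) * R.factorial /
          ‖iteratedDeriv R F 1‖))),
      analyticOrderAt F 1 = R ∧ DyadicUpper a b,
      analyticOrderAt F 1 = R ∧ (∀ s : ℝ, 1 < s → F s ≠ 0) ∧ DyadicLower a b,
      DyadicUpper a b ∧ ∃ c C : ℝ, 0 < c ∧ ∃ᶠ x : ℝ in atTop,
        c * (Real.log x) ^ R ≤ bsdProduct a b x ∧ bsdProduct a b x ≤ C * (Real.log x) ^ R] := by
  have hcorr : Tendsto (corr a b) atTop (𝓝 (-(Real.log 2 / 2))) := corr_tendsto hΔ hrs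
  have hiff := orig_iff hF R
  obtain ⟨r, hr⟩ := order_finite hF
  obtain ⟨hpos, _⟩ := lead_limit hF.1 hr
  have ht := dyadic_tfae hF hr
  tfae_have 1 → 5 := by
    rintro ⟨A, hA, h⟩
    exact ⟨(dyadic_of_tendsto hA h).1, A / 2, 2 * A, by positivity,
      (bounds_of_tendsto hA h).frequently⟩
  tfae_have 5 → 3 := by
    rintro ⟨h1, c, C, hc, h2⟩
    have h3 : Tendsto (fun x : ℝ => bsdStar a b x / (Real.log x) ^ r) atTop
        (𝓝 (Real.exp (r * Real.eulerMascheroniConstant) / leadAbs F r)) := (ht.out 2 0).mp h1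
    have h4 := order_unique (by positivity) h3 hc h2
    exact ⟨by rw [hr, h4], h1⟩
  tfae_have 3 → 4 := fun ⟨h1, h2⟩ => ⟨h1, (ht.out 2 3).mp h2⟩
  tfae_have 4 → 3 := fun ⟨h1, h2⟩ => ⟨h1, (ht.out 2 3).mpr h2⟩
  tfae_have 3 → 2 := by
    rintro ⟨h1, h2⟩
    have hrR : r = R := by
      rw [hr] at h1
      exact_mod_cast h1
    subst hrR
    have hne : iteratedDeriv r F 1 ≠ 0 := by
      intro h0
      unfold leadAbs at hpos
      rw [h0, norm_zero, zero_div] at hpos
      exact lt_irrefl _ hpos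
    refine ⟨hne, ?_⟩
    have he : Real.exp (r * Real.eulerMascheroniConstant) * r.factorial / ‖iteratedDeriv r F 1‖ =
        Real.exp (r * Real.eulerMascheroniConstant) / leadAbs F r := by
      unfold leadAbs
      rw [div_div_eq_mul_div]
    rw [he, product_iff_star hΔ hrs]
    exact (ht.out 2 0).mp h2
  tfae_have 2 → 1 := by
    rintro ⟨h1, h2⟩
    have := norm_pos_iff.mpr h1
    exact ⟨_, by positivity, h2⟩
  tfae_finish

/-! ### the product of the frozen statement -/

theorem prime_dvd_iff {p : ℕ} (hp : p.Prime) :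
    (p : ℤ) ∣ 16 * (4 * a ^ 3 + 27 * b ^ 2) ↔ (p : ℤ) ∣ 2 * (-4 * a ^ 3 - 27 * b ^ 2) := by
  have hpi : Prime (p : ℤ) := Nat.prime_iff_prime_int.mp hp
  have e1 : (16 * (4 * a ^ 3 + 27 * b ^ 2) : ℤ) = 2 ^ 4 * (4 * a ^ 3 + 27 * b ^ 2) := by ring
  have e2 : (2 * (-4 * a ^ 3 - 27 * b ^ 2) : ℤ) = -(2 * (4 * a ^ 3 + 27 * b ^ 2)) := by ring
  rw [e1, e2, dvd_neg, hpi.dvd_mul, hpi.dvd_mul, hpi.dvd_pow_iff_dvd (by norm_num)]

theorem count_eq {p : ℕ} (hp : p.Prime) :
    ((Finset.range p ×ˢ Finset.range p).filter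
      (fun q : ℕ × ℕ => (p : ℤ) ∣ (q.2 : ℤ) ^ 2 - ((q.1 : ℤ) ^ 3 + a * (q.1 : ℤ) + b))).card =
      pointCount a b p := by
  have : Fact p.Prime := ⟨hp⟩
  have hne : NeZero p := ⟨hp.ne_zero⟩
  unfold pointCount
  rw [Nat.card_eq_fintype_card, Fintype.card_subtype]
  refine Finset.card_bij' (fun q _ => ((q.1 : ZMod p), (q.2 : ZMod p)))
    (fun q _ => (q.1.val, q.2.val)) ?_ ?_ ?_ ?_
  · rintro ⟨x, y⟩ hq
    rw [Finset.mem_filter] at hq ⊢
    refine ⟨Finset.mem_univ _, ?_⟩
    have h1 := (ZMod.intCast_zmod_eq_zero_iff_dvd _ p).mpr hq.2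
    push_cast at h1
    simp only []
    linear_combination h1
  · rintro ⟨x, y⟩ hq
    rw [Finset.mem_filter] at hq ⊢
    refine ⟨Finset.mem_product.mpr ⟨Finset.mem_range.mpr (ZMod.val_lt x),
      Finset.mem_range.mpr (ZMod.val_lt y)⟩, ?_⟩
    rw [← ZMod.intCast_zmod_eq_zero_iff_dvd]
    push_cast
    simp only [ZMod.natCast_val, ZMod.cast_id', id_eq]
    have h2 := hq.2
    simp only [] at h2
    linear_combination h2
  · rintro ⟨x, y⟩ hq
    rw [Finset.mem_filter, Finset.mem_product, Finset.mem_range, Finset.mem_range] at hq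
    simp only [] at hq
    simp only [ZMod.val_natCast, Nat.mod_eq_of_lt hq.1.1, Nat.mod_eq_of_lt hq.1.2]
  · rintro ⟨x, y⟩ hq
    simp

theorem frozen_eq (x : ℝ) :
    (∏ p ∈ (Finset.range (⌊x⌋₊ + 1)).filter
      (fun p : ℕ => Nat.Prime p ∧ ¬ ((p : ℤ) ∣ 16 * (4 * a ^ 3 + 27 * b ^ 2))),
      ((((Finset.range p ×ˢ Finset.range p).filter
        (fun q : ℕ × ℕ => (p : ℤ) ∣ (q.2 : ℤ) ^ 2 - ((q.1 : ℤ) ^ 3 + a * (q.1 : ℤ) + b))).card + 1
          : ℕ) : ℝ) / (p : ℝ)) = bsdProduct a b x := by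
  unfold bsdProduct
  refine Finset.prod_congr ?_ fun p hp => ?_
  · ext p
    rw [Finset.mem_filter, Finset.mem_filter]
    unfold GoodPrime
    refine and_congr_right fun _ => and_congr_right fun hp => not_congr (prime_dvd_iff hp)
  · have hp' : p.Prime := (Finset.mem_filter.mp hp).2.1
    rw [count_eq hp']
    push_cast
    rfl

theorem equiv_iff {P : ℝ → ℝ} {A : ℝ} (hA : 0 < A) (R : ℕ) :
    Asymptotics.IsEquivalent atTop P (fun x : ℝ => A * Real.log x ^ R) ↔
      Tendsto (fun x : ℝ => P x / (Real.log x) ^ R) atTop (𝓝 A) := by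
  have hz : ∀ᶠ x : ℝ in atTop, A * Real.log x ^ R ≠ 0 := by
    filter_upwards [Real.tendsto_log_atTop.eventually (eventually_ge_atTop 1)] with x hx
    have : 0 < Real.log x := by linarith
    positivity
  rw [Asymptotics.isEquivalent_iff_tendsto_one hz]
  constructor
  · intro h
    have h1 := h.const_mul A
    rw [mul_one] at h1
    refine h1.congr fun x => ?_
    simp only [Pi.div_apply]
    field_simp
  · intro h
    have h1 := h.div_const A
    rw [div_self hA.ne'] at h1
    refine h1.congr fun x => ?_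
    simp only [Pi.div_apply]
    rw [div_div, mul_comm]

end Pool.Agent.W136.FR
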