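import Pool.Agent.W263.BSD.Lead8

/-! The third order terms of the Euler product are analytic across the line. -/

set_option autoImplicit false

namespace Pool.Agent.W136.FR

open MeasureTheory Filter Topology Set Classical
open Pool.Agent.W263.BSD

variable {S : Set ℕ} {A : ℕ → ℝ}

/-- `p^{1/50}` -/
noncomputable def x1 (p : ℕ) : ℝ := (p : ℝ) ^ (1 / 50 : ℝ)

theorem x1_ge {p : ℕ} (hp : 1 ≤ p) : 1 ≤ x1 p :=
  Real.one_le_rpow (by exact_mod_cast hp) (by norm_num)

theorem prime_ge {p : ℕ} (hp : p.Prime) (h : 25 ≤ p) : 29 ≤ p := by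
  by_contra hc
  rw [not_le] at hc
  interval_cases p <;> revert hp <;> norm_num

theorem dl_eq {p : ℕ} : dl p = (p : ℝ) ^ (-(1 / 2) : ℝ) := by
  unfold dl
  rw [Real.sqrt_eq_rpow, one_div, Real.rpow_neg (by positivity)]

theorem dlx_eq {p : ℕ} (hp : 1 ≤ p) : dl p * x1 p = (p : ℝ) ^ (-(12 / 25) : ℝ) := by
  have hp0 : (0 : ℝ) < p := by exact_mod_cast hp
  rw [dl_eq]
  unfold x1
  rw [← Real.rpow_add hp0]
  norm_num

theorem dlx_le {p : ℕ} (hp : 29 ≤ p) : dl p * x1 p ≤ 1 / 5 := by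
  have hp0 : (0 : ℝ) < p := by exact_mod_cast (show 0 < p by omega)
  rw [dlx_eq (by omega), Real.rpow_neg hp0.le, ← one_div]
  apply one_div_le_one_div_of_le (by norm_num)
  have h1 : ((p : ℝ) ^ (12 / 25 : ℝ)) ^ 25 = (p : ℝ) ^ 12 := by
    rw [← Real.rpow_natCast, ← Real.rpow_mul hp0.le, ← Real.rpow_natCast]
    norm_num
  have h2 : (5 : ℝ) ^ 25 ≤ ((p : ℝ) ^ (12 / 25 : ℝ)) ^ 25 := by
    rw [h1]
    have h3 : (29 : ℝ) ^ 12 ≤ (p : ℝ) ^ 12 :=
      pow_le_pow_left₀ (by norm_num) (by exact_mod_cast hp) 12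
    refine le_trans ?_ h3
    norm_num
  exact le_of_pow_le_pow_left₀ (by norm_num) (by positivity) h2

theorem dlx_cube {p : ℕ} (hp : 1 ≤ p) : (dl p * x1 p) ^ 3 = (p : ℝ) ^ (-(36 / 25) : ℝ) := by
  have hp0 : (0 : ℝ) < p := by exact_mod_cast hp
  rw [dlx_eq hp, ← Real.rpow_natCast, ← Real.rpow_mul hp0.le]
  norm_num

theorem scale {p : ℕ} (hp : 1 ≤ p) (X : ℂ) : ∃ Y : ℂ, X = x1 p * Y ∧ ‖Y‖ = ‖X‖ / x1 p := by
  have h := x1_ge hp
  have h0 : (x1 p : ℂ) ≠ 0 := by exact_mod_cast (show x1 p ≠ 0 by linarith)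
  refine ⟨X / x1 p, by field_simp, ?_⟩
  rw [norm_div, Complex.norm_real, Real.norm_of_nonneg (by linarith)]

theorem tt_scale (E : EData S A) {p : ℕ} (hp : p ∈ S) :
    |tt A p * x1 p| ≤ 2 * (dl p * x1 p) := by
  have h := x1_ge (E.prime p hp).one_le
  rw [abs_mul, abs_of_nonneg (by linarith : 0 ≤ x1 p), ← mul_assoc]
  exact mul_le_mul_of_nonneg_right (E.tt_le hp) (by linarith)

theorem log_fac' (E : EData S A) {p : ℕ} (hp : p ∈ S) {X : ℂ} (hX : ‖X‖ ≤ x1 p) :
    ‖Complex.log (fac A p X) - (-(tt A p) * X + mm A p * X ^ 2)‖ ≤ 30 * (dl p * x1 p) ^ 3 := by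
  have hpr := E.prime p hp
  have h29 := prime_ge hpr (E.big p hp)
  have hx := x1_ge hpr.one_le
  obtain ⟨Y, hY, hYn⟩ := scale hpr.one_le X
  have hY1 : ‖Y‖ ≤ 1 := by rw [hYn, div_le_one (by linarith)]; exact hX
  have h1 := log_expand (mul_nonneg (dl_nonneg p) (by linarith)) (dlx_le h29)
    (tt_scale E hp) hY1
  have e1 : (1 - ((tt A p * x1 p : ℝ) : ℂ) * Y + ((dl p * x1 p : ℝ) : ℂ) ^ 2 * Y ^ 2 : ℂ) =
      fac A p X := by
    unfold fac
    rw [hY]
    push_cast
    ring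
  have e2 : (-((tt A p * x1 p : ℝ) : ℂ) * Y + (((dl p * x1 p : ℝ) : ℂ) ^ 2 -
      ((tt A p * x1 p : ℝ) : ℂ) ^ 2 / 2) * Y ^ 2 : ℂ) = -(tt A p) * X + mm A p * X ^ 2 := by
    unfold mm
    rw [hY]
    push_cast
    ring
  rw [e1, e2] at h1
  exact h1

theorem slit' (E : EData S A) {p : ℕ} (hp : p ∈ S) {X : ℂ} (hX : ‖X‖ ≤ x1 p) :
    fac A p X ∈ Complex.slitPlane := by
  have hpr := E.prime p hp
  have h29 := prime_ge hpr (E.big p hp)
  have hx := x1_ge hpr.one_le
  obtain ⟨Y, hY, hYn⟩ := scale hpr.one_le X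
  have hY1 : ‖Y‖ ≤ 1 := by rw [hYn, div_le_one (by linarith)]; exact hX
  have h1 := factor_slit (mul_nonneg (dl_nonneg p) (by linarith)) (dlx_le h29)
    (tt_scale E hp) hY1
  have e1 : (1 - ((tt A p * x1 p : ℝ) : ℂ) * Y + ((dl p * x1 p : ℝ) : ℂ) ^ 2 * Y ^ 2 : ℂ) =
      fac A p X := by
    unfold fac
    rw [hY]
    push_cast
    ring
  rw [e1] at h1
  exact h1

/-- third order terms -/
noncomputable def hterm (S : Set ℕ) (A : ℕ → ℝ) (p : ℕ) (z : ℂ) : ℂ :=
  if p ∈ S then cc A p * xp p z - Complex.log (fac A p (xp p z)) -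
    mm A p * (xp p z - xp p z ^ 2) else 0

/-- their sum -/
noncomputable def HH (S : Set ℕ) (A : ℕ → ℝ) (z : ℂ) : ℂ := ∑' p, hterm S A p z

theorem xp_norm' {p : ℕ} (hp : 1 ≤ p) {z : ℂ} (hz : -(1 / 50) < z.re) : ‖xp p z‖ ≤ x1 p := by
  rw [norm_xp hp]
  unfold x1
  exact Real.rpow_le_rpow_of_exponent_le (by exact_mod_cast hp) (by linarith)

theorem hterm_norm (E : EData S A) (p : ℕ) {z : ℂ} (hz : -(1 / 50) < z.re) :
    ‖hterm S A p z‖ ≤ 60 * (p : ℝ) ^ (-(36 / 25) : ℝ) := by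
  by_cases hp : p ∈ S
  · have hpr := E.prime p hp
    have hx := x1_ge hpr.one_le
    have hX := xp_norm' hpr.one_le hz
    unfold hterm
    rw [if_pos hp]
    set X := xp p z with hXdef
    have h1 := log_fac' E hp hX
    have h2 := E.log_fac hp (X := 1) (by simp)
    rw [← E.cc_eq hp] at h2
    have h3 : (cc A p * X - Complex.log (fac A p X) - mm A p * (X - X ^ 2) : ℂ) =
        ((cc A p : ℂ) - (-(tt A p) * 1 + mm A p * 1 ^ 2)) * X -
        (Complex.log (fac A p X) - (-(tt A p) * X + mm A p * X ^ 2)) := by ring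
    rw [h3]
    refine (norm_sub_le _ _).trans ?_
    rw [norm_mul]
    have h4 : ‖(cc A p : ℂ) - (-(tt A p) * 1 + mm A p * 1 ^ 2)‖ * ‖X‖ ≤
        30 * dl p ^ 3 * x1 p := by
      have : 0 ≤ dl p := dl_nonneg p
      gcongr
    have h5 : 30 * dl p ^ 3 * x1 p ≤ 30 * (dl p * x1 p) ^ 3 := by
      rw [mul_pow, mul_assoc]
      have h6 : x1 p ≤ x1 p ^ 3 := le_self_pow₀ hx (by norm_num)
      have h7 : 0 ≤ dl p ^ 3 := pow_nonneg (dl_nonneg p) 3
      have := mul_le_mul_of_nonneg_left h6 h7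
      linarith
    rw [← dlx_cube hpr.one_le]
    linarith
  · unfold hterm
    rw [if_neg hp, norm_zero]
    positivity

theorem hterm_summable_bound : Summable fun p : ℕ => 60 * (p : ℝ) ^ (-(36 / 25) : ℝ) :=
  (Real.summable_nat_rpow.mpr (by norm_num)).mul_left _

theorem HH_differentiable (E : EData S A) :
    DifferentiableOn ℂ (HH S A) {z : ℂ | -(1 / 50) < z.re} := by
  refine Complex.differentiableOn_tsum_of_summable_norm hterm_summable_bound ?_
    (isOpen_half _) ?_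
  · intro p z hz
    have hz' : -(1 / 50) < z.re := hz
    refine DifferentiableAt.differentiableWithinAt ?_
    by_cases hp : p ∈ S
    · have hpr := E.prime p hp
      have hX : DifferentiableAt ℂ (xp p) z := by
        unfold xp
        refine DifferentiableAt.const_cpow differentiable_neg.differentiableAt (Or.inl ?_)
        exact_mod_cast hpr.ne_zero
      have h1 : hterm S A p = fun w => cc A p * xp p w - Complex.log (fac A p (xp p w)) -
          mm A p * (xp p w - xp p w ^ 2) := by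
        funext w; unfold hterm; rw [if_pos hp]
      rw [h1]
      refine ((hX.const_mul _).sub (DifferentiableAt.clog ?_ ?_)).sub
        ((hX.sub (hX.pow 2)).const_mul _)
      · unfold fac
        exact ((differentiableAt_const _).sub (hX.const_mul _)).add ((hX.pow 2).const_mul _)
      · exact slit' E hp (xp_norm' hpr.one_le hz')
    · have h1 : hterm S A p = fun _ => 0 := by
        funext w; unfold hterm; rw [if_neg hp]
      rw [h1]
      exact differentiableAt_const _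
  · intro p z hz
    exact hterm_norm E p hz

/-- identity theorem -/
theorem eq_of_real {f g : ℂ → ℂ} (hf : DifferentiableOn ℂ f {z : ℂ | 0 < z.re})
    (hg : DifferentiableOn ℂ g {z : ℂ | 0 < z.re}) (h : ∀ w : ℝ, 0 < w → f w = g w) :
    ∀ z : ℂ, 0 < z.re → f z = g z := by
  have h1 := hf.analyticOnNhd (isOpen_half 0)
  have h2 := hg.analyticOnNhd (isOpen_half 0)
  have h3 : ∃ᶠ z in 𝓝[≠] ((1 : ℝ) : ℂ), f z = g z := by
    have h4 : Tendsto (fun w : ℝ => (w : ℂ)) (𝓝[≠] 1) (𝓝[≠] ((1 : ℝ) : ℂ)) := by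
      refine tendsto_nhdsWithin_of_tendsto_nhds_of_eventually_within _
        (tendsto_nhdsWithin_of_tendsto_nhds (Complex.continuous_ofReal.tendsto 1)) ?_
      filter_upwards [self_mem_nhdsWithin] with w hw
      intro hc
      exact hw (by simpa using hc)
    refine h4.frequently (Eventually.frequently ?_)
    filter_upwards [mem_nhdsWithin_of_mem_nhds (Ioi_mem_nhds (show (0 : ℝ) < 1 by norm_num))]
      with w hw
    exact h w hw
  intro z hz
  exact h1.eqOn_of_preconnected_of_frequently_eq h2 (preconn_half 0) (by simp) h3 hz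

/-- `GG - z lap sc = HH` -/
theorem GG_sub (E : EData S A) : ∀ z : ℂ, 0 < z.re →
    GG S A z - z * lapC (sc S A) z = HH S A z := by
  refine eq_of_real (f := fun z => GG S A z - z * lapC (sc S A) z) ?_ ?_ ?_
  · intro z hz
    have hz' : 0 < z.re := hz
    exact ((E.GG_differentiable hz').sub (differentiableAt_id.mul
      (lapC_differentiableAt sc_meas (fun w hw => E.sc_LInt hw) hz'))).differentiableWithinAt
  · refine (HH_differentiable E).mono fun z hz => ?_
    have hz' : 0 < z.re := hz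
    show -(1 / 50) < z.re
    linarith
  · intro w hw
    have hw2 : (0 : ℝ) < 2 * w := by linarith
    have h1 := (E.gterm_summable (w := w) (by simpa using hw)).hasSum
    have h2 := (Complex.hasSum_ofReal).mpr (E.mc_hasSum hw)
    have h3 := (Complex.hasSum_ofReal).mpr (E.mc_hasSum hw2)
    have h4 := ((h1.sub h2).add h3).tsum_eq
    have h6 : (fun p : ℕ => gterm S A p w - ((mc S A p * (p : ℝ) ^ (-w) : ℝ) : ℂ) +
        ((mc S A p * (p : ℝ) ^ (-(2 * w)) : ℝ) : ℂ)) = fun p : ℕ => hterm S A p w := by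
      funext p
      have e2 : ((p : ℝ) ^ (-(2 * w)) : ℝ) = ((p : ℝ) ^ (-w)) ^ 2 := by
        rw [← Real.rpow_natCast, ← Real.rpow_mul (by positivity)]
        congr 1; push_cast; ring
      rw [e2]
      unfold hterm gterm mc
      by_cases hp : p ∈ S
      · rw [if_pos hp, if_pos hp, if_pos hp, xp_real]
        push_cast
        ring
      · rw [if_neg hp, if_neg hp, if_neg hp]
        simp
    rw [h6] at h4
    have h7 : lap (sc S A) w = lap (stp (mc S A)) w - lap (fun u => stp (mc S A) (u / 2)) w := by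
      unfold sc
      rw [lap_sub (E.mc_LInt hw) (LInt_half (E.mc_LInt (by linarith)))]
    have h8 := lap_half (f := stp (mc S A)) (w := w)
    unfold HH
    rw [h4, lapC_ofReal, h7, ← h8]
    unfold GG
    push_cast
    ring

end Pool.Agent.W136.FR
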