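import Pool.Agent.W136.FR.Kernel

/-! Fubini and the Riemann-Lebesgue lemma for the kernel. -/

set_option autoImplicit false

namespace Pool.Agent.W136.FR

open MeasureTheory Filter Topology Set
open Pool.Agent.W263.BSD (LInt lapC lap)

theorem fubini {f : ℝ → ℝ} (hf : Measurable f) {w : ℝ} (hw : LInt f w) (a v : ℝ) :
    ((∫ u in Ioi 0, f u * Real.exp (-(w * u)) * ker a (u - v) : ℝ) : ℂ) =
      ∫ y, Complex.exp (-(a * v * sm y : ℝ) * Complex.I) *
        lapC f (w - (a * sm y : ℝ) * Complex.I) ∂mu := by
  have h1 : ((∫ u in Ioi 0, f u * Real.exp (-(w * u)) * ker a (u - v) : ℝ) : ℂ) =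
      ∫ u in Ioi (0 : ℝ), ∫ y, (f u : ℂ) * Complex.exp (-(w * u : ℝ)) *
        Complex.exp ((a * (u - v) * sm y : ℝ) * Complex.I) ∂mu := by
    rw [← integral_complex_ofReal]
    refine integral_congr_ae (Eventually.of_forall fun u => ?_)
    simp only []
    rw [integral_const_mul, ← ker_eq]
    push_cast
    rfl
  rw [h1, integral_integral_swap]
  · refine integral_congr_ae (Eventually.of_forall fun y => ?_)
    simp only []
    unfold lapC
    rw [← integral_const_mul]
    refine integral_congr_ae (Eventually.of_forall fun u => ?_)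
    simp only []
    rw [mul_assoc, ← Complex.exp_add, mul_left_comm, ← Complex.exp_add]
    congr 2
    push_cast
    ring
  · have h2 : Integrable (fun p : ℝ × (ℝ × ℝ × ℝ × ℝ) => (f p.1 * Real.exp (-(w * p.1))) * 1)
        ((volume.restrict (Ioi 0)).prod mu) := Integrable.mul_prod hw (integrable_const 1)
    refine Integrable.mono h2 ?_ (Eventually.of_forall fun p => ?_)
    · have hm : Measurable (Function.uncurry fun (u : ℝ) (y : ℝ × ℝ × ℝ × ℝ) =>
          (f u : ℂ) * Complex.exp (-(w * u : ℝ)) *
            Complex.exp ((a * (u - v) * sm y : ℝ) * Complex.I)) := by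
        unfold Function.uncurry
        have hs : Measurable sm := sm_continuous.measurable
        have h3 : Measurable fun p : ℝ × (ℝ × ℝ × ℝ × ℝ) => (f p.1 : ℂ) :=
          Complex.measurable_ofReal.comp (hf.comp measurable_fst)
        have h4 : Measurable fun p : ℝ × (ℝ × ℝ × ℝ × ℝ) => sm p.2 := hs.comp measurable_snd
        fun_prop
      exact hm.aestronglyMeasurable
    · unfold Function.uncurry
      simp only []
      rw [norm_mul, norm_mul, Complex.norm_real, Complex.norm_exp_ofReal_mul_I, mul_one,
        mul_one, norm_mul, Complex.norm_exp, Real.norm_of_nonneg (Real.exp_pos _).le]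
      simp

/-- Riemann-Lebesgue -/
theorem rl {g : ℝ → ℂ} (hg : Continuous g) {C : ℝ} (hC : ∀ s, ‖g s‖ ≤ C) {a : ℝ} (ha : 0 < a) :
    Tendsto (fun v : ℝ => ∫ y, Complex.exp (-(a * v * sm y : ℝ) * Complex.I) * g (a * sm y) ∂mu)
      atTop (𝓝 0) := by
  have hint : ∀ v : ℝ, Integrable (fun y => Complex.exp (-(a * v * sm y : ℝ) * Complex.I) *
      g (a * sm y)) mu := by
    intro v
    refine Integrable.mono' (integrable_const C) ?_ (Eventually.of_forall fun y => ?_)
    · have := sm_continuous
      exact (Continuous.mul (by fun_prop) (hg.comp (by fun_prop))).aestronglyMeasurable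
    · rw [norm_mul]
      have : ‖Complex.exp (-(a * v * sm y : ℝ) * Complex.I)‖ = 1 := by
        have := Complex.norm_exp_ofReal_mul_I (-(a * v * sm y))
        push_cast at this ⊢
        exact this
      rw [this, one_mul]
      exact hC _
  have h1 : ∀ v : ℝ, ∫ y, Complex.exp (-(a * v * sm y : ℝ) * Complex.I) * g (a * sm y) ∂mu =
      ∫ z, (∫ x, Complex.exp (-(a * v * sm (x, z) : ℝ) * Complex.I) * g (a * sm (x, z)) ∂nu)
        ∂(nu.prod (nu.prod nu)) := by
    intro v
    have := hint v
    unfold mu at this ⊢
    exact integral_prod_symm _ this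
  simp only [h1]
  have h0 : (0 : ℂ) = ∫ _ : ℝ × ℝ × ℝ, (0 : ℂ) ∂(nu.prod (nu.prod nu)) := by simp
  rw [h0]
  refine tendsto_integral_filter_of_dominated_convergence (fun _ => C * nu.real univ) ?_ ?_
    (integrable_const _) ?_
  · refine Eventually.of_forall fun v => ?_
    have := hint v
    unfold mu at this
    exact this.swap.integral_prod_left.aestronglyMeasurable
  · refine Eventually.of_forall fun v => Eventually.of_forall fun z => ?_
    refine norm_integral_le_of_norm_le_const (Eventually.of_forall fun x => ?_)
    rw [norm_mul]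
    have : ‖Complex.exp (-(a * v * sm (x, z) : ℝ) * Complex.I)‖ = 1 := by
      have := Complex.norm_exp_ofReal_mul_I (-(a * v * sm (x, z)))
      push_cast at this ⊢
      exact this
    rw [this, one_mul]
    exact hC _
  · refine Eventually.of_forall fun z => ?_
    set s : ℝ := z.1 + (z.2.1 + z.2.2) with hs
    have h2 : ∀ v : ℝ, ∫ x, Complex.exp (-(a * v * sm (x, z) : ℝ) * Complex.I) *
        g (a * sm (x, z)) ∂nu = Complex.exp (-(a * v * s : ℝ) * Complex.I) *
        ∫ x, Real.fourierChar (-(x * (a * v / (2 * Real.pi)))) •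
          (Ioc (-1 : ℝ) 1).indicator (fun x => g (a * (x + s))) x := by
      intro v
      unfold nu
      rw [← integral_const_mul, ← integral_indicator measurableSet_Ioc]
      refine integral_congr_ae (Eventually.of_forall fun x => ?_)
      simp only []
      by_cases hx : x ∈ Ioc (-1 : ℝ) 1
      · rw [indicator_of_mem hx, indicator_of_mem hx, Circle.smul_def, Real.fourierChar_apply,
          smul_eq_mul, ← mul_assoc, ← Complex.exp_add]
        have e1 : sm (x, z) = x + s := rfl
        rw [e1]
        congr 2
        have : (Real.pi : ℂ) ≠ 0 := by exact_mod_cast Real.pi_ne_zero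
        push_cast
        field_simp
        ring
      · rw [indicator_of_notMem hx, indicator_of_notMem hx, smul_zero, mul_zero]
    simp only [h2]
    have h3 := Real.tendsto_integral_exp_smul_cocompact
      ((Ioc (-1 : ℝ) 1).indicator (fun x => g (a * (x + s))))
    have h4 : Tendsto (fun v : ℝ => a * v / (2 * Real.pi)) atTop (cocompact ℝ) := by
      refine Tendsto.mono_right ?_ atTop_le_cocompact
      have e1 : (fun v : ℝ => a * v / (2 * Real.pi)) = fun v => (a / (2 * Real.pi)) * v := by
        funext v; ring
      rw [e1]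
      exact tendsto_id.const_mul_atTop (by positivity)
    have h5 := h3.comp h4
    rw [tendsto_zero_iff_norm_tendsto_zero] at h5 ⊢
    refine h5.congr fun v => ?_
    rw [norm_mul]
    have : ‖Complex.exp (-(a * v * s : ℝ) * Complex.I)‖ = 1 := by
      have := Complex.norm_exp_ofReal_mul_I (-(a * v * s))
      push_cast at this ⊢
      exact this
    rw [this, one_mul]
    rfl

end Pool.Agent.W136.FR
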